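import Mathlib
import Pool.Agent.Results.MP_70ba79_ag.SparseCurves
import Pool.Agent.W2helper39.MU.Defs

/-!
Curves whose coordinates are sums of few units, or of products of units and powers, in a family of
quasi-projective varieties.

The family is `{G = 0, Q ≠ 0}` in the product of the affine space with the coordinates `s` (the
parameters) and the projective space with the coordinates `x`; the exceptional set `V'` is given by
the polynomials `H`. All polynomials have complex coefficients.

A curve is given by its function field `L`; its complete model has genus `g` with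
`canDeg ℂ L = 2 g - 2`, and the places of `L` are the points of the complete curve. `height ℂ x` is
the degree of the map to the projective space with the homogeneous coordinates `x`, and `hgt ℂ f` is
the degree of the function `f`, the number of its poles.
-/

set_option autoImplicit false

namespace Pool.Agent.W2helper39.FB

open MvPolynomial FF
open Pool.Agent.W2helper39.MU (val InU InV laur)
open Pool.Agent.Results.MP_70ba79_ag.SparseCurves (height)
open Pool.Agent.W603.LV (canDeg hgt)

/-- the polynomial `P (s, ·)` in the projective coordinates -/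
noncomputable def fib {r M : ℕ} (s : Fin r → ℂ) (P : MvPolynomial (Fin r ⊕ Fin M) ℂ) :
    MvPolynomial (Fin M) ℂ :=
  aeval (Sum.elim (fun j => C (s j)) X) P

section curve

variable {L : Type} [Field L] [Algebra ℂ L]

/-- `u` is a regular function without zeros outside `S`. -/
def UnitOff (S : Finset (Place ℂ L)) (u : L) : Prop := u ≠ 0 ∧ ∀ P ∉ S, P.ord u = 0

/-- The orders of the zeros and poles of `u` outside `S` are multiples of `N`. -/
def PowerOff (S : Finset (Place ℂ L)) (N : ℕ) (u : L) : Prop :=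
  u ≠ 0 ∧ ∀ P ∉ S, (N : ℤ) ∣ P.ord u

/-- `max (2 g - 2 + s, 0)` for the affine curve with the set `S` of `s` points at infinity. -/
noncomputable def chi (S : Finset (Place ℂ L)) : ℤ := max (canDeg ℂ L + S.card) 0

/-- constant functions -/
noncomputable def const (L : Type) [Field L] [Algebra ℂ L] {r : ℕ} (s : Fin r → ℂ) : Fin r → L :=
  fun j => algebraMap ℂ L (s j)

end curve

section conditions

variable {ι κ : Type} {r M : ℕ} (m : ℕ) (G : ι → MvPolynomial (Fin r ⊕ Fin M) ℂ)
  (Q : MvPolynomial (Fin r ⊕ Fin M) ℂ) (H : κ → MvPolynomial (Fin r ⊕ Fin M) ℂ)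

/-- Every nonconstant map from the punctured line to a fibre of `U`, with projective coordinates given
by Laurent polynomials with at most `m` terms, lies in `V'`. -/
def GmIn : Prop :=
  ∀ (s : Fin r → ℂ) (a : Fin M → Fin m → ℂ) (b : Fin M → Fin m → ℤ),
    (∀ t, t ≠ 0 → InU (RingHom.id ℂ) G Q s (laur a b t)) →
    (∃ t u c c', t ≠ 0 ∧ u ≠ 0 ∧ laur a b t c * laur a b u c' ≠ laur a b t c' * laur a b u c) →
    ∀ t, t ≠ 0 → InV (RingHom.id ℂ) H s (laur a b t)

/-- `x` gives a map of complexity `m` from the affine curve with the set `S` of points at infinity to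
the fibre of `U` over `s`, with image not contained in `V'`: the coordinates are sums of `m`
functions, each of them zero or a unit, and `Q (x)` is a unit. -/
def IsCurve {L : Type} [Field L] [Algebra ℂ L] (S : Finset (Place ℂ L)) (s : Fin r → ℂ)
    (x : Fin M → L) : Prop :=
  x ≠ 0 ∧ (∃ t : Fin M → Fin m → L, (∀ c i, t c i = 0 ∨ UnitOff S (t c i)) ∧
      ∀ c, x c = ∑ i, t c i) ∧
    (∀ j, val (algebraMap ℂ L) (const L s) x (G j) = 0) ∧
    UnitOff S (val (algebraMap ℂ L) (const L s) x Q) ∧
    ¬ InV (algebraMap ℂ L) H (const L s) x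

/-- For each fibre: the degrees of the maps of complexity `m` from affine curves of genus `g` with `s`
points at infinity are bounded in terms of `2 g - 2 + s`. -/
def FibreBound : Prop :=
  ∀ s : Fin r → ℂ, ∃ β : ℤ → ℤ, ∀ (L : Type) [Field L] [Algebra ℂ L] [IsFF ℂ L]
    (S : Finset (Place ℂ L)) (x : Fin M → L), IsCurve m G Q H S s x →
      height ℂ x ≤ β (canDeg ℂ L + S.card)

/-- The degrees of the maps of complexity `m` from affine curves of genus `g` with `s` points at
infinity to all fibres are at most `C max (2 g - 2 + s, 0)`. -/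
def LinearBound : Prop :=
  ∃ C : ℕ, ∀ (s : Fin r → ℂ) (L : Type) [Field L] [Algebra ℂ L] [IsFF ℂ L]
    (S : Finset (Place ℂ L)) (x : Fin M → L), IsCurve m G Q H S s x → height ℂ x ≤ C * chi S

/-- `x` is a point over `s` in `V = {G = 0}` with coordinates which are sums of `m` terms `a u`, and
`Q (x) = q v ≠ 0`, where the orders of the zeros and poles of all `u` and of `v` outside `S` are
multiples of `N`. The parameters `s` need not be constant. -/
def IsPoint {L : Type} [Field L] [Algebra ℂ L] (S : Finset (Place ℂ L)) (N : ℕ) (s : Fin r → L)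
    (a u : Fin M → Fin m → L) (q v : L) (x : Fin M → L) : Prop :=
  (∀ c i, PowerOff S N (u c i)) ∧ PowerOff S N v ∧ (∀ c, x c = ∑ i, a c i * u c i) ∧ x ≠ 0 ∧
    (∀ j, val (algebraMap ℂ L) s x (G j) = 0) ∧ val (algebraMap ℂ L) s x Q = q * v ∧ q ≠ 0

/-- the sum of `max (2 g - 2 + #S, 0)` and of the degrees of all `s`, `a` and `q` -/
noncomputable def size {L : Type} [Field L] [Algebra ℂ L] (S : Finset (Place ℂ L)) (s : Fin r → L)
    (a : Fin M → Fin m → L) (q : L) : ℤ :=
  chi S + ∑ j, hgt ℂ (s j) + ∑ c, ∑ i, hgt ℂ (a c i) + hgt ℂ q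

/-- There are `N₀` and `C` such that the points `x` outside `V'`, as in `IsPoint` with `N ≥ N₀`, have
degree at most `C` times the sum of `max (2 g - 2 + #S, 0)` and the degrees of all `s`, `a` and
`q`. -/
def PowerBound : Prop :=
  ∃ N₀ C : ℕ, ∀ (L : Type) [Field L] [Algebra ℂ L] [IsFF ℂ L] (S : Finset (Place ℂ L)) (N : ℕ)
    (s : Fin r → L) (a u : Fin M → Fin m → L) (q v : L) (x : Fin M → L), N₀ ≤ N →
    IsPoint m G Q S N s a u q v x → ¬ InV (algebraMap ℂ L) H s x →
      height ℂ x ≤ C * size m S s a q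

variable {m}

/-- The map from the punctured line over the field `L` given by the Laurent polynomials with the terms
`y c i * t ^ b c i` is a nonconstant map to the fibre of `U` over `s`. -/
def OnGm {L : Type} [Field L] [Algebra ℂ L] (s : Fin r → L) (y : Fin M → Fin m → L)
    (b : Fin M → Fin m → ℤ) : Prop :=
  (∀ t : L, t ≠ 0 → InU (algebraMap ℂ L) G Q s (laur y b t)) ∧
    ∃ t u c c', t ≠ 0 ∧ u ≠ 0 ∧ laur y b t c * laur y b u c' ≠ laur y b t c' * laur y b u c

variable (m)

/-- There are `N₀`, `C` and a finite set of vectors of exponents `b` such that for every point `x` as in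
`IsPoint` with `N ≥ N₀` either the degree of `x` is at most `C` times the sum of
`max (2 g - 2 + #S, 0)` and the degrees of all `s`, `a` and `q`, or `x` lies on the image (at `t = 1`)
of a nonconstant map from the punctured line over `L` to the fibre of `U` over `s`, with the
coordinates `∑ i, a c i * u c i * t ^ b c i`, for a `b` in the finite set. -/
def Dichotomy : Prop :=
  ∃ (N₀ C : ℕ) (B : Finset (Fin M → Fin m → ℤ)), ∀ (L : Type) [Field L] [Algebra ℂ L] [IsFF ℂ L]
    (S : Finset (Place ℂ L)) (N : ℕ) (s : Fin r → L) (a u : Fin M → Fin m → L) (q v : L)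
    (x : Fin M → L), N₀ ≤ N → IsPoint m G Q S N s a u q v x →
      height ℂ x ≤ C * size m S s a q ∨ ∃ b ∈ B, OnGm G Q s (fun c i => a c i * u c i) b

end conditions

section families

open Pool.Agent.Results.MP_70ba79_ag.SparseCurves (OnX DimGE SmoothPair Irred LogGeneralType)

/-- `s` is a point of the base `{F = 0, R ≠ 0}` -/
def OnBase {f r : ℕ} (F : Fin f → MvPolynomial (Fin r) ℂ) (R : MvPolynomial (Fin r) ℂ)
    {L : Type} [Field L] [Algebra ℂ L] (s : Fin r → L) : Prop :=
  (∀ i, aeval s (F i) = 0) ∧ aeval s R ≠ 0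

/-- `X`, given by the forms `G`, is a projective variety of dimension `N`, irreducible and smooth;
the zero set `D` of the form `Q` on `X` is a divisor with strict normal crossings (its components are
given by forms `E i j`), and `X - D` is nonempty and of log general type. -/
def GeneralTypePair (N : ℕ) {c g : ℕ} (G : Fin g → MvPolynomial (Fin (N + 1 + c)) ℂ)
    (Q : MvPolynomial (Fin (N + 1 + c)) ℂ) : Prop :=
  ∃ (q w : ℕ) (E : Fin q → Fin w → MvPolynomial (Fin (N + 1 + c)) ℂ) (d : Fin q → Fin w → ℕ),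
    (∀ j, ∃ e, (G j).IsHomogeneous e) ∧ (∀ i j, (E i j).IsHomogeneous (d i j)) ∧
    (∃ δ, Q.IsHomogeneous δ) ∧ DimGE N G ∧ SmoothPair c G E ∧ Irred G ∧ LogGeneralType N G E d ∧
    (∀ z : Fin (N + 1 + c) → ℂ, z ≠ 0 → OnX G z →
      (aeval z Q ≠ 0 ↔ ∀ i, ∃ j, aeval z (E i j) ≠ 0)) ∧
    ∃ z : Fin (N + 1 + c) → ℂ, z ≠ 0 ∧ OnX G z ∧ aeval z Q ≠ 0

/-- `H (s, ·)` does not vanish on all of the fibre over `s` of `U` over the field `K` -/
def NonzeroOn {ι : Type} {r M : ℕ} (G : ι → MvPolynomial (Fin r ⊕ Fin M) ℂ)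
    (Q H : MvPolynomial (Fin r ⊕ Fin M) ℂ) {K : Type} [Field K] [Algebra ℂ K] (s : Fin r → K) :
    Prop :=
  ∃ z : Fin M → K, z ≠ 0 ∧ InU (algebraMap ℂ K) G Q s z ∧ val (algebraMap ℂ K) s z H ≠ 0

/-- The points `x` over `s` outside `{H = 0}`, as in `IsPoint` with `N ≥ N₀`, have degree at most `C`
times the sum of `max (2 g - 2 + #S, 0)` and the degrees of all `s`, `a` and `q`. -/
def BoundAt {ι : Type} {r M : ℕ} (m : ℕ) (G : ι → MvPolynomial (Fin r ⊕ Fin M) ℂ)
    (Q H : MvPolynomial (Fin r ⊕ Fin M) ℂ) (N₀ C : ℕ) {L : Type} [Field L] [Algebra ℂ L]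
    [IsFF ℂ L] (s : Fin r → L) : Prop :=
  ∀ (S : Finset (Place ℂ L)) (N : ℕ) (a u : Fin M → Fin m → L) (q v : L) (x : Fin M → L),
    N₀ ≤ N → IsPoint m G Q S N s a u q v x → val (algebraMap ℂ L) s x H ≠ 0 →
      height ℂ x ≤ C * size m S s a q

/-- There are `N₀`, `C` and a finite list of polynomials `H i`, forms in the coordinates `x`, such that
for each point `s` of the base over `ℂ` there is an `i`, such that `H i (s, ·)` does not vanish on all of
the fibre and the bound `BoundAt` holds for all function fields `L` and the constant parameters `s`. -/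
def UniformFibres {ι : Type} {f r M : ℕ} (m : ℕ) (G : ι → MvPolynomial (Fin r ⊕ Fin M) ℂ)
    (Q : MvPolynomial (Fin r ⊕ Fin M) ℂ) (F : Fin f → MvPolynomial (Fin r) ℂ)
    (R : MvPolynomial (Fin r) ℂ) : Prop :=
  ∃ (N₀ C l : ℕ) (H : Fin l → MvPolynomial (Fin r ⊕ Fin M) ℂ),
    (∀ i, ∃ n, ∀ s, (fib s (H i)).IsHomogeneous n) ∧
    ∀ s : Fin r → ℂ, OnBase F R s → ∃ i, NonzeroOn G Q (H i) s ∧
      ∀ (L : Type) [Field L] [Algebra ℂ L] [IsFF ℂ L], BoundAt m G Q (H i) N₀ C (const L s)

/-- There are `N₀`, `C` and a finite list of polynomials `H i`, forms in the coordinates `x`, such that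
for each function field `L` and each point `s` of the base over `L` there is an `i`, such that
`H i (s, ·)` does not vanish on all of the fibre over the algebraic closure of `L` and the bound
`BoundAt` holds for `s`. -/
def UniformPoints {ι : Type} {f r M : ℕ} (m : ℕ) (G : ι → MvPolynomial (Fin r ⊕ Fin M) ℂ)
    (Q : MvPolynomial (Fin r ⊕ Fin M) ℂ) (F : Fin f → MvPolynomial (Fin r) ℂ)
    (R : MvPolynomial (Fin r) ℂ) : Prop :=
  ∃ (N₀ C l : ℕ) (H : Fin l → MvPolynomial (Fin r ⊕ Fin M) ℂ),
    (∀ i, ∃ n, ∀ s, (fib s (H i)).IsHomogeneous n) ∧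
    ∀ (L : Type) [Field L] [Algebra ℂ L] [IsFF ℂ L] (s : Fin r → L), OnBase F R s →
      ∃ i, NonzeroOn G Q (H i) (fun j => algebraMap L (AlgebraicClosure L) (s j)) ∧
        BoundAt m G Q (H i) N₀ C s

end families

end Pool.Agent.W2helper39.FB
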