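import Mathlib
import Pool.Agent.W603.LV.Root
import Pool.Agent.W2helper39.MU.Lin
import Pool.Agent.NH29.GN.Sml

/-!
The unit equation over function fields, for elements which are powers outside a finite set of places,
with coefficients of small height.
-/

set_option autoImplicit false
set_option linter.unusedSectionVars false

namespace Pool.Agent.W2helper39.FB

open FF Pool.Agent.W603.LV

section gap

variable {k K : Type} [Field k] [Field K] [Algebra k K] [CharZero k] [IsFF k K] [IsAlgClosed k]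

/-- The height inequality for elements without small multiplicities outside `S`. -/
theorem height_gap (S : Finset (Place k K)) {m N : ℕ} (hN0 : 0 < N) (hN : 2 * m ^ 2 ≤ N)
    (f : Fin (m + 1) → K) (hf0 : ∀ i, f i ≠ 0) (hsum : ∑ i, f i = 0)
    (hlin : LinearIndependent k (fun l => f ((Fin.last m).succAbove l)))
    (hgap : ∀ P ∉ S, ∀ i j, P.ord (f i) < P.ord (f j) → (N : ℤ) ≤ P.ord (f j) - P.ord (f i))
    (i j : Fin (m + 1)) :
    hgt k (f i / f j) ≤ 2 * tri m * max (canDeg k K + S.card) 0 := by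
  classical
  obtain ⟨D, hD⟩ := exists_der (k := k) (K := K)
  have hW := wr_ne_zero hD _ hlin
  set W := wr D (fun l => f ((Fin.last m).succAbove l)) with hWd
  -- the minimal orders
  have hmin : ∀ P : Place k K, ∃ i0, ∀ i, P.ord (f i0) ≤ P.ord (f i) := by
    intro P
    obtain ⟨i0, -, h⟩ := Finset.exists_min_image Finset.univ (fun i => P.ord (f i))
      ⟨0, Finset.mem_univ _⟩
    exact ⟨i0, fun i => h i (Finset.mem_univ _)⟩
  choose i0 hi0 using hmin
  set μ : Place k K → ℤ := fun P => P.ord (f (i0 P)) with hμ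
  -- a large finite set
  obtain ⟨T1, hT1⟩ := exists_supp (k := k) Finset.univ f
  obtain ⟨T2, hT2⟩ := exists_supp (k := k) (Finset.univ : Finset (Fin 1)) ![W]
  set T : Finset (Place k K) := T1 ∪ T2 ∪ (vo_finite hD).toFinset ∪ S with hT
  have hTf : ∀ i, ∀ P : Place k K, P.ord (f i) ≠ 0 → P ∈ T := by
    intro i P hP
    have := hT1 i (Finset.mem_univ _) P hP
    simp [hT, this]
  have hTW : ∀ P : Place k K, P.ord W ≠ 0 → P ∈ T := by
    intro P hP
    have := hT2 0 (Finset.mem_univ _) P hP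
    simp [hT, this]
  have hTv : ∀ P : Place k K, vo P D ≠ 0 → P ∈ T := by
    intro P hP
    simp [hT, hP]
  have hST : S ⊆ T := by
    intro P hP
    simp [hT, hP]
  set n : Place k K → ℤ := fun P => ((Finset.univ.filter fun i => μ P < P.ord (f i)).card : ℤ)
    with hn
  set H : ℤ := - ∑ P ∈ T, μ P with hH
  have hsumf : ∀ i, ∑ P ∈ T, P.ord (f i) = 0 := fun i => sum_ord_finset _ T (hTf i)
  -- local estimates
  have hloc : ∀ P ∈ T, tri m * vo P D + ∑ i, P.ord (f i) - μ P -
      (if P ∈ S then tri m else ((m - 1 : ℕ) : ℤ) * n P) ≤ P.ord W := by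
    intro P _
    refine local_est P hD f hf0 hsum hW (μ P) (hi0 P) (i0 P) rfl _ ?_
    by_cases hPS : P ∈ S
    · left; rw [if_pos hPS]
    · right; rw [if_neg hPS]
  have h1 := Finset.sum_le_sum hloc
  rw [sum_ord_finset W T hTW] at h1
  have h2 : ∑ P ∈ T, (tri m * vo P D + ∑ i, P.ord (f i) - μ P -
      (if P ∈ S then tri m else ((m - 1 : ℕ) : ℤ) * n P)) =
      tri m * (- canDeg k K) + H - (tri m * S.card + ((m - 1 : ℕ) : ℤ) * ∑ P ∈ T \ S, n P) := by
    rw [Finset.sum_sub_distrib, Finset.sum_sub_distrib, Finset.sum_add_distrib, ← Finset.mul_sum,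
      canDeg_finset hD T hTv, Finset.sum_comm, Finset.sum_congr rfl fun i _ => hsumf i]
    have h3 : ∑ P ∈ T, (if P ∈ S then tri m else ((m - 1 : ℕ) : ℤ) * n P) =
        tri m * S.card + ((m - 1 : ℕ) : ℤ) * ∑ P ∈ T \ S, n P := by
      rw [← Finset.sum_sdiff hST, add_comm, Finset.mul_sum]
      congr 1
      · rw [Finset.sum_congr rfl fun P hP => if_pos hP, Finset.sum_const, nsmul_eq_mul, mul_comm]
      · exact Finset.sum_congr rfl fun P hP => if_neg (Finset.mem_sdiff.1 hP).2
    rw [h3, hH]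
    simp only [Finset.sum_const_zero, add_zero]
    ring
  rw [h2] at h1
  -- powers
  have h4 : ∀ P ∈ T \ S, (N : ℤ) * n P ≤ ∑ i, (P.ord (f i) - μ P) := by
    intro P hP
    have hPS := (Finset.mem_sdiff.1 hP).2
    have h5 : (N : ℤ) * n P = ∑ i, if μ P < P.ord (f i) then (N : ℤ) else 0 := by
      rw [← Finset.sum_filter, Finset.sum_const, nsmul_eq_mul, mul_comm]
    rw [h5]
    refine Finset.sum_le_sum fun i _ => ?_
    split_ifs with h6
    · exact hgap P hPS (i0 P) i h6
    · exact sub_nonneg.2 (hi0 P i)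
  have h5 : ∀ P ∈ T, 0 ≤ ∑ i, (P.ord (f i) - μ P) := fun P _ =>
    Finset.sum_nonneg fun i _ => sub_nonneg.2 (hi0 P i)
  have h6 : ∑ P ∈ T, ∑ i, (P.ord (f i) - μ P) = (m + 1) * H := by
    rw [Finset.sum_comm]
    have : ∀ i : Fin (m + 1), ∑ P ∈ T, (P.ord (f i) - μ P) = H := by
      intro i
      rw [Finset.sum_sub_distrib, hsumf, hH]; ring
    rw [Finset.sum_congr rfl fun i _ => this i, Finset.sum_const]
    simp
  have h7 : (N : ℤ) * ∑ P ∈ T \ S, n P ≤ (m + 1) * H := by
    rw [← h6, Finset.mul_sum]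
    refine (Finset.sum_le_sum h4).trans ?_
    exact Finset.sum_le_sum_of_subset_of_nonneg Finset.sdiff_subset fun P hP _ => h5 P hP
  have hH0 : 0 ≤ H := by
    have : ∑ P ∈ T, (P.ord (f 0) - μ P) = H := by
      rw [Finset.sum_sub_distrib, hsumf, hH]; ring
    rw [← this]
    exact Finset.sum_nonneg fun P _ => sub_nonneg.2 (hi0 P 0)
  set χ : ℤ := canDeg k K + S.card with hχ
  set X : ℤ := max χ 0 with hX
  have hX0 : 0 ≤ X := le_max_right _ _
  have hXχ : χ ≤ X := le_max_left _ _
  have htri : 0 ≤ tri m := tri_nonneg m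
  have h8 : H ≤ 2 * tri m * X := by
    have hNm : 2 * (m : ℤ) ^ 2 ≤ N := by exact_mod_cast hN
    have hN0' : (1 : ℤ) ≤ N := by exact_mod_cast hN0
    have h9 : (N : ℤ) * H ≤ N * (tri m * X) + ((m - 1 : ℕ) : ℤ) * ((m + 1) * H) := by
      have h10 := mul_le_mul_of_nonneg_left h1 (by positivity : (0 : ℤ) ≤ N)
      have h11 := mul_le_mul_of_nonneg_left h7 (by positivity : (0 : ℤ) ≤ ((m - 1 : ℕ) : ℤ))
      have h12 : (N : ℤ) * (tri m * χ) ≤ N * (tri m * X) :=
        mul_le_mul_of_nonneg_left (mul_le_mul_of_nonneg_left hXχ htri) (by positivity)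
      nlinarith
    have h13 : ((m - 1 : ℕ) : ℤ) * (m + 1) ≤ m ^ 2 := by
      rcases Nat.eq_zero_or_pos m with h0 | h0
      · subst h0
        simp
      · have h12 : ((m - 1 : ℕ) : ℤ) = m - 1 := by push_cast [Nat.cast_sub h0]; ring
        rw [h12]
        nlinarith
    have h14 : ((m - 1 : ℕ) : ℤ) * ((m + 1) * H) ≤ m ^ 2 * H := by
      rw [← mul_assoc]
      exact mul_le_mul_of_nonneg_right h13 hH0
    have h15 : 2 * ((m : ℤ) ^ 2 * H) ≤ N * H := by
      rw [← mul_assoc]
      exact mul_le_mul_of_nonneg_right hNm hH0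
    have h16 : (N : ℤ) * H ≤ N * (2 * tri m * X) := by nlinarith
    exact le_of_mul_le_mul_left h16 (by linarith)
  refine le_trans ?_ h8
  -- the height of a ratio
  have hij : ∀ P : Place k K, P.ord (f i / f j) ≠ 0 → P ∈ T := by
    intro P hP
    by_contra hcon
    apply hP
    have h9 : P.ord (f i) = 0 := by
      by_contra h; exact hcon (hTf i P h)
    have h10 : P.ord (f j) = 0 := by
      by_contra h; exact hcon (hTf j P h)
    rw [P.ord_div (hf0 i) (hf0 j), h9, h10]; rfl
  rw [hgt_finset _ T hij]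
  have h9 : ∑ P ∈ T, (P.ord (f j) - μ P) = H := by
    rw [Finset.sum_sub_distrib, hsumf, hH]; ring
  rw [← h9]
  refine Finset.sum_le_sum fun P _ => ?_
  rw [P.ord_div (hf0 i) (hf0 j)]
  have := hi0 P i
  have := hi0 P j
  simp only [hμ]
  omega

/-- Two members of a relation have a ratio of small height. -/
theorem pair_gap {J : Type} [Fintype J] [Nonempty J] (S : Finset (Place k K)) {N s : ℕ}
    (hs : Fintype.card J ≤ s) (hN0 : 0 < N) (hN : 2 * s ^ 2 ≤ N) (g : J → K)
    (hg0 : ∀ j, g j ≠ 0) (hrel : ∑ j, g j = 0)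
    (hgap : ∀ P ∉ S, ∀ i j, P.ord (g i) < P.ord (g j) → (N : ℤ) ≤ P.ord (g j) - P.ord (g i)) :
    ∃ i j, i ≠ j ∧ hgt k (g i / g j) ≤ 2 * tri s * max (canDeg k K + S.card) 0 := by
  classical
  by_contra hcon
  push Not at hcon
  have key := class_sum (k := k) g (fun i j => i = j) ⟨fun _ => rfl, fun h => h.symm,
    fun h h' => h.trans h'⟩ (by
    intro m e he c hc hrel' hlin i j
    by_contra hij
    have hm : m + 1 ≤ s := by
      have := Fintype.card_le_of_injective e he
      simp only [Fintype.card_fin] at this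
      omega
    have hms : m ^ 2 ≤ s ^ 2 := Nat.pow_le_pow_left (by omega) 2
    have h1 := height_gap S hN0 (m := m) (by omega)
      (fun i => c i • g (e i)) (fun i => smul_ne_zero (hc i) (hg0 _)) hrel' hlin (by
        intro P hP i j
        rw [ord_smul P (hc i), ord_smul P (hc j)]
        exact hgap P hP _ _) i j
    have h2 : hgt k (g (e i) / g (e j)) = hgt k (c i • g (e i) / c j • g (e j)) := by
      refine hgt_congr fun P => ?_
      rw [P.ord_div (hg0 _) (hg0 _), P.ord_div (smul_ne_zero (hc i) (hg0 _))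
        (smul_ne_zero (hc j) (hg0 _)), ord_smul P (hc i), ord_smul P (hc j)]
    have h3 := hcon (e i) (e j) hij
    rw [h2] at h3
    have h4 : 2 * tri m * max (canDeg k K + S.card) 0 ≤ 2 * tri s * max (canDeg k K + S.card) 0 :=
      mul_le_mul_of_nonneg_right (mul_le_mul_of_nonneg_left (tri_mono (by omega)) (by norm_num))
        (le_max_right _ _)
    linarith)
    (Finset.univ.filter fun j => (fun _ : J => (1 : k)) j ≠ 0).card (fun _ => 1) le_rfl
    (by simpa using hrel) (Classical.arbitrary J)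
  simp only [one_smul] at key
  rw [Finset.sum_filter, Finset.sum_ite_eq] at key
  simp only [Finset.mem_univ, if_true] at key
  exact hg0 _ key

/-- the number of zeros and poles -/
theorem supp_card (c : K) : ∃ T : Finset (Place k K), (∀ P : Place k K, P ∉ T → P.ord c = 0) ∧
    (T.card : ℤ) ≤ 2 * hgt k c := by
  classical
  obtain ⟨T1, hT1⟩ := exists_supp (k := k) (Finset.univ : Finset (Fin 1)) ![c]
  let T : Finset (Place k K) := T1.filter fun P => P.ord c ≠ 0
  have hT : ∀ P : Place k K, P.ord c ≠ 0 → P ∈ T := fun P hP =>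
    Finset.mem_filter.2 ⟨hT1 0 (Finset.mem_univ _) P hP, hP⟩
  refine ⟨T, fun P hP => by
    by_contra h
    exact hP (hT P h), ?_⟩
  have h1 : hgt k c = ∑ P ∈ T, max (-P.ord c) 0 := hgt_finset c T hT
  have h2 : hgt k c = ∑ P ∈ T, max (P.ord c) 0 := by
    rw [← hgt_inv, hgt_finset c⁻¹ T (fun P hP => hT P (by
      rw [P.ord_inv] at hP
      omega))]
    refine Finset.sum_congr rfl fun P _ => ?_
    rw [P.ord_inv, neg_neg]
  have h3 : (T.card : ℤ) ≤ ∑ P ∈ T, (max (-P.ord c) 0 + max (P.ord c) 0) := by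
    rw [Finset.card_eq_sum_ones]
    push_cast
    refine Finset.sum_le_sum fun P hP => ?_
    have h4 := (Finset.mem_filter.1 hP).2
    omega
  rw [Finset.sum_add_distrib, ← h1, ← h2] at h3
  linarith

end gap

end Pool.Agent.W2helper39.FB
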