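import Mathlib
import Pool.Agent.W2helper39.FB.Unit
import Pool.Agent.W2helper39.FB.Defs
import Pool.Agent.Y731.FG.Fin1

/-!
Sequences of function fields: small elements and powers.
-/

set_option autoImplicit false
set_option linter.unusedSectionVars false

namespace Pool.Agent.W2helper39.FB

open FF Filter Pool.Agent.W603.LV Pool.Agent.NH29.GN
open Pool.Agent.W2helper39.MU (IndU RootC)
open Pool.Agent.Results.MP_70ba79_ag.SparseCurves (height)

section one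

variable {L : Type} [Field L] [Algebra ℂ L] [IsFF ℂ L]

theorem hgt_add (a b : L) : hgt ℂ (a + b) ≤ hgt ℂ a + hgt ℂ b := by
  have h := hgt_mvpoly (k := ℂ) (ρ := Fin 2) ![a, b] (MvPolynomial.X 0 + MvPolynomial.X 1)
  have h1 : MvPolynomial.aeval ![a, b]
      ((MvPolynomial.X 0 + MvPolynomial.X 1 : MvPolynomial (Fin 2) ℂ)) = a + b := by simp
  rw [h1, Fin.sum_univ_two] at h
  have h2 : ((MvPolynomial.X 0 + MvPolynomial.X 1 : MvPolynomial (Fin 2) ℂ)).totalDegree ≤ 1 := by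
    refine (MvPolynomial.totalDegree_add _ _).trans ?_
    simp
  have h3 : (0 : ℤ) ≤ hgt ℂ a + hgt ℂ b := add_nonneg (hgt_nonneg _) (hgt_nonneg _)
  refine h.trans ?_
  have h4 : (((MvPolynomial.X 0 + MvPolynomial.X 1 : MvPolynomial (Fin 2) ℂ)).totalDegree : ℤ) ≤ 1 := by
    exact_mod_cast h2
  calc _ ≤ 1 * (hgt ℂ a + hgt ℂ b) := mul_le_mul_of_nonneg_right h4 h3
    _ = _ := one_mul _

theorem hgt_mul' (a b : L) : hgt ℂ (a * b) ≤ hgt ℂ a + hgt ℂ b := by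
  by_cases ha : a = 0
  · rw [ha, zero_mul, hgt_zero, zero_add]
    exact hgt_nonneg _
  by_cases hb : b = 0
  · rw [hb, mul_zero, hgt_zero, add_zero]
    exact hgt_nonneg _
  exact hgt_mul ha hb

theorem hgt_neg (a : L) : hgt ℂ (-a) = hgt ℂ a := by
  refine hgt_congr fun P => ?_
  rw [P.ord_neg]

theorem hgt_const (c : ℂ) : hgt ℂ (algebraMap ℂ L c) = 0 := by
  by_cases hc : c = 0
  · rw [hc, map_zero, hgt_zero]
  · unfold hgt
    rw [← finsum_zero (α := Place ℂ L)]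
    refine finsum_congr fun P => ?_
    rw [P.ord_const hc]
    simp

theorem hgt_root' (n : ℕ) (g : L) (a : Fin n → L) (h : g ^ n = ∑ j, a j * g ^ (j : ℕ)) :
    hgt ℂ g ≤ ∑ j, hgt ℂ (a j) := by
  let e : ℕ → L := fun d => if h : d < n then -a ⟨d, h⟩ else 1
  have he : e n = 1 := by
    simp only [e]
    rw [dif_neg (lt_irrefl n)]
  have h1 := hgt_root (k := ℂ) (D := n) e (by rw [he]; exact one_ne_zero) g (by
    rw [Finset.sum_range_succ, he, one_mul, h, Finset.sum_range, ← Finset.sum_add_distrib]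
    refine Finset.sum_eq_zero fun j _ => ?_
    simp only [e]
    rw [dif_pos j.2]
    ring)
  rw [he, hgt_one, zero_add, Finset.sum_range] at h1
  refine h1.trans (le_of_eq ?_)
  refine Finset.sum_congr rfl fun j _ => ?_
  simp only [e]
  rw [dif_pos j.2, hgt_neg]

/-- the degree of a map is at most the sum of the degrees of the ratios of its coordinates -/
theorem height_le {M : ℕ} (x : Fin M → L) (c0 : Fin M) (h0 : x c0 ≠ 0) :
    height ℂ x ≤ ∑ c, hgt ℂ (x c / x c0) := by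
  classical
  have hx : ∃ c, x c ≠ 0 := ⟨c0, h0⟩
  have hf2 := Pool.Agent.Y731.FG.minOrd_finite (k := ℂ) hx
  obtain ⟨T3, hT3'⟩ := exists_supp (k := ℂ) Finset.univ (fun c => x c / x c0)
  obtain ⟨T4, hT4'⟩ := exists_supp (k := ℂ) (Finset.univ : Finset (Fin 1)) ![x c0]
  set T := hf2.toFinset ∪ T3 ∪ T4 with hT
  have hT1 : ∀ P : Place ℂ L, Pool.Agent.Y731.FG.minOrd P x ≠ 0 → P ∈ T := by
    intro P hP
    simp only [hT, Finset.mem_union, Set.Finite.mem_toFinset]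
    exact Or.inl (Or.inl hP)
  have hT2 : ∀ c, ∀ P : Place ℂ L, P.ord (x c / x c0) ≠ 0 → P ∈ T := by
    intro c P hP
    simp only [hT, Finset.mem_union, Set.Finite.mem_toFinset]
    exact Or.inl (Or.inr (hT3' c (Finset.mem_univ _) P hP))
  have hT3 : ∀ P : Place ℂ L, P.ord (x c0) ≠ 0 → P ∈ T := by
    intro P hP
    simp only [hT, Finset.mem_union, Set.Finite.mem_toFinset]
    exact Or.inr (hT4' 0 (Finset.mem_univ _) P hP)
  have hH : height ℂ x = -∑ P ∈ T, Pool.Agent.Y731.FG.minOrd P x :=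
    Pool.Agent.Y731.FG.hgtP_finset hx T hT1
  have hs := sum_ord_finset (x c0) T hT3
  have h5 : -∑ P ∈ T, Pool.Agent.Y731.FG.minOrd P x =
      ∑ P ∈ T, (P.ord (x c0) - Pool.Agent.Y731.FG.minOrd P x) := by
    rw [Finset.sum_sub_distrib, hs, zero_sub]
  rw [hH, h5, Finset.sum_congr rfl fun c _ => hgt_finset _ T (hT2 c), Finset.sum_comm]
  refine Finset.sum_le_sum fun P _ => ?_
  obtain ⟨c, hc, hcm⟩ := Pool.Agent.Y731.FG.exists_minOrd P hx
  rw [← hcm]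
  have h6 : max (-P.ord (x c / x c0)) 0 ≤ ∑ c, max (-P.ord (x c / x c0)) 0 :=
    Finset.single_le_sum (f := fun c => max (-P.ord (x c / x c0)) 0)
      (fun _ _ => le_max_right _ _) (Finset.mem_univ c)
  rw [P.ord_div hc h0] at h6
  have h7 := le_max_left (-(P.ord (x c) - P.ord (x c0))) 0
  linarith

theorem PowerOff.mul {S : Finset (Place ℂ L)} {N : ℕ} {u v : L} (hu : PowerOff S N u)
    (hv : PowerOff S N v) : PowerOff S N (u * v) :=
  ⟨mul_ne_zero hu.1 hv.1, fun P hP => by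
    rw [P.ord_mul hu.1 hv.1]
    exact dvd_add (hu.2 P hP) (hv.2 P hP)⟩

theorem PowerOff.one {S : Finset (Place ℂ L)} {N : ℕ} : PowerOff S N (1 : L) :=
  ⟨one_ne_zero, fun P _ => by
    rw [P.ord_one]
    exact dvd_zero _⟩

theorem PowerOff.inv {S : Finset (Place ℂ L)} {N : ℕ} {u : L} (hu : PowerOff S N u) :
    PowerOff S N u⁻¹ :=
  ⟨inv_ne_zero hu.1, fun P hP => by
    rw [P.ord_inv]
    exact (dvd_neg).2 (hu.2 P hP)⟩

end one

section seq

/-- a sequence of function fields with finite sets of places -/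
structure Seq where
  L : ℕ → Type
  [fld : ∀ n, Field (L n)]
  [alg : ∀ n, Algebra ℂ (L n)]
  [ff : ∀ n, IsFF ℂ (L n)]
  S : ∀ n, Finset (Place ℂ (L n))
  N : ℕ → ℕ
  le : ∀ n, n ≤ N n
  /-- the scale -/
  H : ℕ → ℤ
  nonneg : ∀ n, 0 ≤ H n

attribute [instance] Seq.fld Seq.alg Seq.ff

variable (D : Seq) (𝒰 : Ultrafilter ℕ)

/-- the ultraproduct -/
abbrev Seq.E : Type := UPr 𝒰 D.L

/-- the class of a sequence -/
noncomputable def Seq.cl : (∀ n, D.L n) →+* D.E 𝒰 := UPr.mk 𝒰 D.L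

theorem Seq.cl_zero (f : ∀ n, D.L n) : D.cl 𝒰 f = 0 ↔ ∀ᶠ n in (𝒰 : Filter ℕ), f n = 0 := by
  have h := UPr.mk_eq 𝒰 (E := D.L) (f := f) (g := 0)
  rw [map_zero] at h
  exact h

/-- the heights -/
noncomputable def Seq.hf : HFam 𝒰 D.L where
  h := fun n a => (hgt ℂ a : ℝ)
  H := fun n => (D.H n : ℝ)
  c := fun _ => 0
  nonneg := fun _ a => by exact_mod_cast hgt_nonneg a
  zero := fun _ => by rw [hgt_zero]; simp
  one := fun _ => by rw [hgt_one]; simp
  neg := fun _ a => by rw [hgt_neg]; simp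
  inv := fun _ a => by rw [hgt_inv]; simp
  add := fun _ a b => by
    rw [add_zero]
    exact_mod_cast hgt_add a b
  mul := fun _ a b => by
    rw [add_zero]
    exact_mod_cast hgt_mul' a b
  root := fun n _ g a h => by
    rw [add_zero]
    exact_mod_cast hgt_root' n g a h
  small := fun n N => Eventually.of_forall fun i => by
    rw [mul_zero]
    exact_mod_cast D.nonneg i

/-- small sequences -/
def Seq.Small (f : ∀ n, D.L n) : Prop :=
  ∀ N : ℕ, ∀ᶠ n in (𝒰 : Filter ℕ), N * hgt ℂ (f n) ≤ D.H n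

theorem Seq.small_iff (f : ∀ n, D.L n) : Sm (D.hf 𝒰) f ↔ D.Small 𝒰 f := by
  refine forall_congr' fun N => eventually_congr (Eventually.of_forall fun n => ?_)
  change (N : ℝ) * (hgt ℂ (f n) : ℝ) ≤ (D.H n : ℝ) ↔ _
  exact_mod_cast Iff.rfl

theorem Seq.exists_small : ∃ k : Subfield (D.E 𝒰),
    (∀ f : ∀ n, D.L n, D.cl 𝒰 f ∈ k ↔ D.Small 𝒰 f) ∧
      ∀ y : D.E 𝒰, IsAlgebraic k y → y ∈ k := by
  obtain ⟨k, h1, h2⟩ := sml ℕ 𝒰 D.L (D.hf 𝒰)
  exact ⟨k, fun f => (h1 f).trans (D.small_iff 𝒰 f), h2⟩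

/-- the classes of sequences of powers -/
noncomputable def Seq.G : Subgroup (D.E 𝒰)ˣ where
  carrier := {g | ∃ u : ∀ n, D.L n, (∀ n, PowerOff (D.S n) (D.N n) (u n)) ∧
    (g : D.E 𝒰) = D.cl 𝒰 u}
  mul_mem' := by
    rintro g g' ⟨u, hu, h⟩ ⟨u', hu', h'⟩
    refine ⟨fun n => u n * u' n, fun n => (hu n).mul (hu' n), ?_⟩
    rw [Units.val_mul, h, h', ← map_mul]
    rfl
  one_mem' := ⟨fun _ => 1, fun n => PowerOff.one, by
    rw [Units.val_one]
    exact (map_one (D.cl 𝒰)).symm⟩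
  inv_mem' := by
    rintro g ⟨u, hu, h⟩
    refine ⟨fun n => (u n)⁻¹, fun n => (hu n).inv, ?_⟩
    have h1 : (g : D.E 𝒰) * D.cl 𝒰 (fun n => (u n)⁻¹) = 1 := by
      rw [h, ← map_mul]
      have h2 : (u * fun n => (u n)⁻¹) = 1 := by
        funext n
        exact mul_inv_cancel₀ (hu n).1
      rw [h2, map_one]
    exact Units.inv_eq_of_mul_eq_one_right h1

theorem Seq.mem_G {u : ∀ n, D.L n} (hu : ∀ n, PowerOff (D.S n) (D.N n) (u n)) :
    ∃ g ∈ D.G 𝒰, (g : D.E 𝒰) = D.cl 𝒰 u := by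
  have h1 : D.cl 𝒰 u * D.cl 𝒰 (fun n => (u n)⁻¹) = 1 := by
    rw [← map_mul]
    have h2 : (u * fun n => (u n)⁻¹) = 1 := by
      funext n
      exact mul_inv_cancel₀ (hu n).1
    rw [h2, map_one]
  exact ⟨Units.mkOfMulEqOne _ _ h1, ⟨u, hu, rfl⟩, rfl⟩

theorem Seq.rootC {k : Subfield (D.E 𝒰)} (hk : ∀ y : D.E 𝒰, IsAlgebraic k y → y ∈ k) :
    RootC k (D.G 𝒰) := by
  intro g _ n hn h
  apply hk
  refine IsAlgebraic.of_pow hn ?_
  exact isAlgebraic_algebraMap (R := k) (⟨_, h⟩ : k)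

/-- **The unit equation** for one function field. -/
theorem pair_small {L : Type} [Field L] [Algebra ℂ L] [IsFF ℂ L] {J : Type} [Fintype J] [Nonempty J]
    (S : Finset (Place ℂ L)) {N s : ℕ} (hs : Fintype.card J ≤ s) (hN0 : 0 < N) (hN : 2 * s ^ 2 ≤ N)
    (u c : J → L) (hu : ∀ j, PowerOff S N (u j)) (hc : ∀ j, c j ≠ 0) (hrel : ∑ j, c j * u j = 0) :
    ∃ i j, i ≠ j ∧
      hgt ℂ (u i / u j) ≤ (4 * tri s + 2) * (chi S + ∑ j, hgt ℂ (c j)) := by
  classical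
  choose T hT hTc using fun j => supp_card (k := ℂ) (c j)
  let S' : Finset (Place ℂ L) := S ∪ Finset.univ.biUnion T
  have hS' : ∀ P : Place ℂ L, P ∉ S' → P ∉ S ∧ ∀ j, P.ord (c j) = 0 := by
    intro P hP
    simp only [S', Finset.mem_union, Finset.mem_biUnion, Finset.mem_univ, true_and, not_or,
      not_exists] at hP
    exact ⟨hP.1, fun j => hT j P (hP.2 j)⟩
  have hord : ∀ P : Place ℂ L, P ∉ S' → ∀ j, (N : ℤ) ∣ P.ord (c j * u j) := by
    intro P hP j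
    obtain ⟨h1, h2⟩ := hS' P hP
    rw [P.ord_mul (hc j) (hu j).1, h2 j, zero_add]
    exact (hu j).2 P h1
  obtain ⟨i, j, hij, h⟩ := pair_gap (k := ℂ) S' hs hN0 hN (fun j => c j * u j)
    (fun j => mul_ne_zero (hc j) (hu j).1) hrel (fun P hP i j hlt =>
      Int.le_of_dvd (sub_pos.2 hlt) (dvd_sub (hord P hP j) (hord P hP i)))
  refine ⟨i, j, hij, ?_⟩
  have hcard : (S'.card : ℤ) ≤ S.card + ∑ j, 2 * hgt ℂ (c j) := by
    have h1 : S'.card ≤ S.card + ∑ j, (T j).card :=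
      (Finset.card_union_le _ _).trans (Nat.add_le_add_left Finset.card_biUnion_le _)
    have h2 : (S'.card : ℤ) ≤ S.card + ∑ j, ((T j).card : ℤ) := by exact_mod_cast h1
    refine h2.trans ?_
    have := Finset.sum_le_sum fun j (_ : j ∈ Finset.univ) => hTc j
    linarith
  rw [← Finset.mul_sum] at hcard
  set W : ℤ := ∑ j, hgt ℂ (c j) with hW
  have hW0 : 0 ≤ W := Finset.sum_nonneg fun j _ => hgt_nonneg _
  have hchi : max (canDeg ℂ L + S'.card) 0 ≤ chi S + 2 * W := by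
    have h1 : canDeg ℂ L + S.card ≤ chi S := le_max_left _ _
    have h2 : 0 ≤ chi S := le_max_right _ _
    apply max_le
    · linarith
    · linarith
  have hi : hgt ℂ (c i) ≤ W :=
    Finset.single_le_sum (f := fun j => hgt ℂ (c j)) (fun _ _ => hgt_nonneg _) (Finset.mem_univ i)
  have hj : hgt ℂ (c j) ≤ W :=
    Finset.single_le_sum (f := fun j => hgt ℂ (c j)) (fun _ _ => hgt_nonneg _) (Finset.mem_univ j)
  have htri : 0 ≤ tri s := tri_nonneg s
  have hχ : 0 ≤ chi S := le_max_right _ _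
  have h1 : u i / u j = (c i * u i / (c j * u j)) * (c j / c i) := by
    have h2 := hc i
    have h3 := hc j
    have h4 := (hu i).1
    have h5 := (hu j).1
    field_simp
  have h2 : hgt ℂ (c j / c i) ≤ 2 * W := by
    rw [div_eq_mul_inv]
    refine (hgt_mul' _ _).trans ?_
    rw [hgt_inv]
    linarith
  rw [h1]
  refine (hgt_mul' _ _).trans ?_
  have h3 : 2 * tri s * max (canDeg ℂ L + S'.card) 0 ≤ 2 * tri s * (chi S + 2 * W) :=
    mul_le_mul_of_nonneg_left hchi (by positivity)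
  have h4 : 0 ≤ tri s * chi S := mul_nonneg htri hχ
  have h5 : 0 ≤ tri s * W := mul_nonneg htri hW0
  nlinarith

/-- **Independence.** -/
theorem Seq.indU (h𝒰 : ∀ B : ℕ, ∀ᶠ n in (𝒰 : Filter ℕ), B ≤ n)
    (hS : ∀ N : ℕ, ∀ᶠ n in (𝒰 : Filter ℕ), N * chi (D.S n) ≤ D.H n) {k : Subfield (D.E 𝒰)}
    (hk : ∀ f : ∀ n, D.L n, D.cl 𝒰 f ∈ k ↔ D.Small 𝒰 f) : IndU k (D.G 𝒰) := by
  classical
  intro J _ g c hg hc hne hsum
  by_contra hcon
  push Not at hcon
  obtain ⟨j₀, hj₀⟩ := hcon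
  choose u hu hgu using hg
  choose c' hc' using fun j => UPr.mk_surj 𝒰 D.L (c j)
  have hc'' : ∀ j, D.cl 𝒰 (c' j) = c j := hc'
  let J' : Type := {j : J // c j ≠ 0}
  have hJ' : Nonempty J' := ⟨⟨j₀, hj₀⟩⟩
  obtain ⟨s, hs⟩ : ∃ s, s = Fintype.card J' := ⟨_, rfl⟩
  -- the relation
  have hrel : ∀ᶠ n in (𝒰 : Filter ℕ), ∑ j : J', c' j.1 n * u j.1 n = 0 := by
    rw [← D.cl_zero]
    have h1 : (fun n => ∑ j : J', c' j.1 n * u j.1 n) = ∑ j : J', (c' j.1 * u j.1) := by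
      funext n
      rw [Finset.sum_apply]
      rfl
    rw [h1, map_sum]
    have h2 : ∀ j, D.cl 𝒰 (c' j * u j) = c j * (g j : D.E 𝒰) := by
      intro j
      rw [map_mul, hc'', hgu]
    simp only [h2]
    rw [← Finset.sum_filter_add_sum_filter_not (Finset.univ : Finset J)
      (fun i => c i ≠ 0)] at hsum
    have h3 : ∑ i ∈ Finset.univ.filter (fun i => ¬ c i ≠ 0), c i * (g i : D.E 𝒰) = 0 := by
      refine Finset.sum_eq_zero fun i hi => ?_
      rw [not_not.1 (Finset.mem_filter.1 hi).2, zero_mul]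
    rw [h3, add_zero] at hsum
    refine Eq.trans ?_ hsum
    refine Finset.sum_bij (fun a _ => a.1) (fun a _ => ?_) (fun a _ b _ h => Subtype.ext h)
      (fun b hb => ⟨⟨b, (Finset.mem_filter.1 hb).2⟩, Finset.mem_univ _, rfl⟩) fun a _ => rfl
    exact Finset.mem_filter.2 ⟨Finset.mem_univ _, a.2⟩
  have hnz : ∀ᶠ n in (𝒰 : Filter ℕ), ∀ j : J', c' j.1 n ≠ 0 := by
    rw [eventually_all]
    intro j
    by_contra h
    apply j.2
    rw [← hc'', D.cl_zero]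
    rw [← Ultrafilter.eventually_not] at h
    filter_upwards [h] with n h1
    exact not_not.1 h1
  have hcs : ∀ j : J', D.Small 𝒰 (c' j.1) := by
    intro j
    rw [← hk, hc'']
    exact hc j.1
  -- the pairs
  have hpair : ∀ᶠ n in (𝒰 : Filter ℕ), ∃ p : J' × J', p.1 ≠ p.2 ∧
      hgt ℂ (u p.1.1 n / u p.2.1 n) ≤
        (4 * tri s + 2) * (chi (D.S n) + ∑ j : J', hgt ℂ (c' j.1 n)) := by
    filter_upwards [hrel, hnz, h𝒰 (2 * s ^ 2 + 1)] with n h1 h2 h3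
    have h4 := D.le n
    obtain ⟨i, j, hij, h⟩ := pair_small (J := J') (D.S n) (N := D.N n) (s := s) hs.ge (by omega)
      (by omega) (fun j => u j.1 n) (fun j => c' j.1 n) (fun j => hu j.1 n) h2 h1
    exact ⟨(i, j), hij, h⟩
  have hex : ∃ p : J' × J', ∀ᶠ n in (𝒰 : Filter ℕ), p.1 ≠ p.2 ∧
      hgt ℂ (u p.1.1 n / u p.2.1 n) ≤
        (4 * tri s + 2) * (chi (D.S n) + ∑ j : J', hgt ℂ (c' j.1 n)) := by
    by_contra hcon2
    have h1 : ∀ p : J' × J', ∀ᶠ n in (𝒰 : Filter ℕ), ¬ (p.1 ≠ p.2 ∧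
        hgt ℂ (u p.1.1 n / u p.2.1 n) ≤
          (4 * tri s + 2) * (chi (D.S n) + ∑ j : J', hgt ℂ (c' j.1 n))) := fun p =>
      Ultrafilter.eventually_not.2 (fun h => hcon2 ⟨p, h⟩)
    obtain ⟨n, ⟨p, hp⟩, h2⟩ := (hpair.and (eventually_all.2 h1)).exists
    exact h2 p hp
  obtain ⟨⟨i, j⟩, hp⟩ := hex
  obtain ⟨n₀, hn₀⟩ := hp.exists
  have hij : i ≠ j := hn₀.1
  apply hne i.1 j.1 (fun h => hij (Subtype.ext h))
  have h1 : (g i.1 : D.E 𝒰) / (g j.1 : D.E 𝒰) = D.cl 𝒰 fun n => u i.1 n / u j.1 n := by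
    rw [div_eq_iff (Units.ne_zero _), hgu, hgu, ← map_mul]
    congr 1
    funext n
    exact (div_mul_cancel₀ _ (hu j.1 n).1).symm
  rw [h1, hk]
  intro N
  -- smallness
  obtain ⟨A, hA⟩ : ∃ A : ℕ, (4 * tri s + 2 : ℤ) ≤ A := ⟨(4 * tri s + 2).toNat, Int.self_le_toNat _⟩
  have hcs' : ∀ᶠ n in (𝒰 : Filter ℕ), ∀ j : J',
      (((s + 1) * (N * A) : ℕ) : ℤ) * hgt ℂ (c' j.1 n) ≤ D.H n :=
    eventually_all.2 fun j => hcs j _
  filter_upwards [hp, hS ((s + 1) * (N * A)), hcs'] with n h2 h3 h4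
  have h5 := h2.2
  have hW0 : 0 ≤ ∑ j : J', hgt ℂ (c' j.1 n) := Finset.sum_nonneg fun j _ => hgt_nonneg _
  have hχ0 : 0 ≤ chi (D.S n) := le_max_right _ _
  have h6 : (((s + 1) * (N * A) : ℕ) : ℤ) * ∑ j : J', hgt ℂ (c' j.1 n) ≤ s * D.H n := by
    rw [Finset.mul_sum]
    refine (Finset.sum_le_sum fun j _ => h4 j).trans ?_
    rw [Finset.sum_const, Finset.card_univ, nsmul_eq_mul, hs]
  have h7 : hgt ℂ (u i.1 n / u j.1 n) ≤ A * (chi (D.S n) + ∑ j : J', hgt ℂ (c' j.1 n)) :=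
    h5.trans (mul_le_mul_of_nonneg_right hA (add_nonneg hχ0 hW0))
  have h8 : ((s : ℤ) + 1) * (N * hgt ℂ (u i.1 n / u j.1 n)) ≤ (s + 1) * D.H n := by
    have h9 : ((s : ℤ) + 1) * (N * hgt ℂ (u i.1 n / u j.1 n)) ≤
        (s + 1) * (N * (A * (chi (D.S n) + ∑ j : J', hgt ℂ (c' j.1 n)))) :=
      mul_le_mul_of_nonneg_left (mul_le_mul_of_nonneg_left h7 (by positivity)) (by positivity)
    push_cast at h3 h6
    linarith
  exact le_of_mul_le_mul_left h8 (by positivity)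

end seq

end Pool.Agent.W2helper39.FB
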