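import Mathlib
import Pool.Agent.W2helper39.MU.Core

/-!
The curve through a point whose coordinates are sums of products of small elements and units, for
families of fields.
-/

set_option autoImplicit false
set_option linter.unusedSectionVars false

namespace Pool.Agent.W2helper39.FB

open MvPolynomial Finset Filter Pool.Agent.W2helper39.MU

variable {Ω E A : Type} {F : Ω → Type} [∀ ω, Field (F ω)] [Field E] [CommRing A]

/-- **The main construction.** -/
theorem specialD (𝒰 : Ultrafilter Ω) (mk : (∀ ω, F ω) →+* E)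
    (hmk : ∀ f, mk f = 0 ↔ ∀ᶠ ω in (𝒰 : Filter Ω), f ω = 0) {k : Subfield E} {𝒢 : Subgroup Eˣ}
    (hI : IndU k 𝒢) (hR : RootC k 𝒢) (φ : ∀ ω, A →+* F ω) (hφ : ∀ c, mk (fun ω => φ ω c) ∈ k) {r M m : ℕ}
    {ι : Type} [Finite ι] (G : ι → MvPolynomial (Fin r ⊕ Fin M) A)
    (Q : MvPolynomial (Fin r ⊕ Fin M) A) (s : Fin r → ∀ ω, F ω) (hs : ∀ j, mk (s j) ∈ k)
    (a u : Fin M → Fin m → ∀ ω, F ω) (ha : ∀ c i, mk (a c i) ∈ k)
    (hu : ∀ c i, ∃ g ∈ 𝒢, (g : E) = mk (u c i)) (q v : ∀ ω, F ω) (hq : mk q ∈ k)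
    (hv : ∃ g ∈ 𝒢, (g : E) = mk v) (hq0 : mk q ≠ 0)
    (hG : ∀ j, ∀ᶠ ω in (𝒰 : Filter Ω),
      val (φ ω) (fun i => s i ω) (fun c => ∑ i, a c i ω * u c i ω) (G j) = 0)
    (hQ : ∀ᶠ ω in (𝒰 : Filter Ω),
      val (φ ω) (fun i => s i ω) (fun c => ∑ i, a c i ω * u c i ω) Q = q ω * v ω)
    (hne : ∃ c c', mk (fun ω => ∑ i, a c' i ω * u c' i ω) ≠ 0 ∧
      mk (fun ω => ∑ i, a c i ω * u c i ω) / mk (fun ω => ∑ i, a c' i ω * u c' i ω) ∉ k) :
    ∃ b : Fin M → Fin m → ℤ, ∀ᶠ ω in (𝒰 : Filter Ω),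
      Good (φ ω) G Q (fun i => s i ω) (fun c i => a c i ω * u c i ω) b := by
  classical
  choose g hg hgu using hu
  obtain ⟨g', hg', hgv⟩ := hv
  -- the family of all variables
  let φE : A →+* E := mk.comp (RingHom.pi φ)
  have hφE : ∀ c, φE c ∈ k := hφ
  let aV : Vr r M m → E := Sum.elim (fun j => mk (s j)) fun p => mk (a p.1 p.2)
  let gV : Vr r M m → Eˣ := Sum.elim (fun _ => 1) fun p => g p.1 p.2
  have haV : ∀ p, aV p ∈ k := by
    rintro (j | p)
    · exact hs j
    · exact ha _ _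
  have hgV : ∀ p, gV p ∈ 𝒢 := by
    rintro (j | p)
    · exact 𝒢.one_mem
    · exact hg _ _
  let gO : Option (Vr r M m) → Eˣ := fun p => match p with
    | none => g'
    | some p => gV p
  have hgO : ∀ p, gO p ∈ 𝒢 := by
    rintro (_ | p)
    · exact hg'
    · exact hgV p
  obtain ⟨lO, hl1, hl2⟩ := exists_wt hR gO hgO
  let l : Vr r M m → ℤ := fun p => lO (some p)
  let l' : ℤ := lO none
  have hl : ∀ (γ : Vr r M m → ℤ) (ε : ℤ), (((∏ p, gV p ^ γ p) * g' ^ ε : Eˣ) : E) ∈ k →
      ∑ p, l p * γ p + l' * ε = 0 := by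
    intro γ ε h
    have h1 := hl1 (fun p => match p with
      | none => ε
      | some p => γ p) (by
      rw [Fintype.prod_option, mul_comm]
      exact h)
    rw [Fintype.sum_option] at h1
    simp only at h1
    simp only [l, l']
    linarith
  let b : Fin M → Fin m → ℤ := fun c i => l (Sum.inr (c, i))
  have hlb : l = wv r b := by
    funext p
    rcases p with j | p
    · have h1 := hl (Pi.single (Sum.inl j) 1) 0 (by
        rw [zpow_zero, mul_one, Finset.prod_eq_single (Sum.inl j)]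
        · rw [Pi.single_eq_same, zpow_one]
          show ((1 : Eˣ) : E) ∈ k
          rw [Units.val_one]
          exact k.one_mem
        · intro q _ hq
          rw [Pi.single_eq_of_ne hq, zpow_zero]
        · intro h
          exact absurd (Finset.mem_univ _) h)
      rw [Finset.sum_eq_single (Sum.inl j)] at h1
      · simp only [Pi.single_eq_same, mul_one, mul_zero, add_zero] at h1
        exact h1
      · intro q _ hq
        rw [Pi.single_eq_of_ne hq, mul_zero]
      · intro h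
        exact absurd (Finset.mem_univ _) h
    · rfl
  -- the values
  let yω : ∀ ω, Fin M → Fin m → F ω := fun ω c i => a c i ω * u c i ω
  have hev : ∀ P : MvPolynomial (Vr r M m) A, eval₂ φE (fun p => aV p * (gV p : E)) P =
      mk fun ω => eval₂ (φ ω) (pt (fun i => s i ω) (yω ω)) P := by
    intro P
    let V : Vr r M m → ∀ ω, F ω := fun p ω => pt (fun i => s i ω) (yω ω) p
    have h1 : (fun p => aV p * (gV p : E)) = fun p => mk (V p) := by
      funext p
      rcases p with j | p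
      · show mk (s j) * ((1 : Eˣ) : E) = mk (s j)
        rw [Units.val_one, mul_one]
      · show mk (a p.1 p.2) * (g p.1 p.2 : E) = _
        rw [hgu, ← map_mul]
        rfl
    have h2 : eval₂ (RingHom.pi φ) V P =
        fun ω => eval₂ (φ ω) (pt (fun i => s i ω) (yω ω)) P := by
      funext ω
      have h3 := eval₂_comp_left (Pi.evalRingHom F ω) (RingHom.pi φ) V P
      exact h3
    rw [h1, ← h2]
    exact (eval₂_comp_left mk (RingHom.pi φ) V P).symm
  have hsub : ∀ (P : MvPolynomial (Fin r ⊕ Fin M) A) (ω : Ω),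
      eval₂ (φ ω) (pt (fun i => s i ω) (yω ω)) (sub m P) =
        val (φ ω) (fun i => s i ω) (fun c => ∑ i, a c i ω * u c i ω) P := fun P ω =>
    eval₂_sub (φ ω) _ _ P
  have hmk0 : ∀ f, mk f ≠ 0 → ∀ᶠ ω in (𝒰 : Filter Ω), f ω ≠ 0 := by
    intro f hf
    by_contra h
    exact hf ((hmk f).2 (by
      rw [← Ultrafilter.eventually_not] at h
      filter_upwards [h] with ω h1
      exact not_not.1 h1))
  have hcmp := fun (P : MvPolynomial (Vr r M m) A) (a' : E) (ha' : a' ∈ k)
    (h : eval₂ φE (fun p => aV p * (gV p : E)) P = a' * (g' : E)) (e : ℤ) =>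
    transfer hI φE hφE aV gV haV hgV a' g' ha' hg' l l' hl P h e
  refine ⟨b, ?_⟩
  -- the equations
  have h1 : ∀ᶠ ω in (𝒰 : Filter Ω), ∀ j, ∀ e ∈ (sub m (G j)).support.image (wt (wv r b)),
      eval₂ (φ ω) (pt (fun i => s i ω) (yω ω)) (cmp (wv r b) e (sub m (G j))) = 0 := by
    rw [eventually_all]
    intro j
    rw [Finset.eventually_all]
    intro e _
    rw [← hmk, ← hev, ← hlb, hcmp _ 0 k.zero_mem]
    · rw [zero_mul, ite_self]
    · rw [zero_mul, hev, hmk]
      filter_upwards [hG j] with ω h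
      rw [hsub]
      exact h
  have hQE : eval₂ φE (fun p => aV p * (gV p : E)) (sub m Q) = mk q * (g' : E) := by
    rw [hev, hgv, ← map_mul]
    have h2 : mk ((fun ω => eval₂ (φ ω) (pt (fun i => s i ω) (yω ω)) (sub m Q)) - q * v) = 0 := by
      rw [hmk]
      filter_upwards [hQ] with ω h
      rw [Pi.sub_apply, hsub, h]
      exact sub_self _
    rw [map_sub, sub_eq_zero] at h2
    exact h2
  have h2 : ∀ᶠ ω in (𝒰 : Filter Ω), ∀ e ∈ (sub m Q).support.image (wt (wv r b)), e ≠ l' →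
      eval₂ (φ ω) (pt (fun i => s i ω) (yω ω)) (cmp (wv r b) e (sub m Q)) = 0 := by
    rw [Finset.eventually_all]
    intro e _
    by_cases he : e = l'
    · exact Eventually.of_forall fun ω h => absurd he h
    · have h3 : ∀ᶠ ω in (𝒰 : Filter Ω),
          eval₂ (φ ω) (pt (fun i => s i ω) (yω ω)) (cmp (wv r b) e (sub m Q)) = 0 := by
        rw [← hmk, ← hev, ← hlb, hcmp _ (mk q) hq hQE, if_neg he]
      filter_upwards [h3] with ω h4 _
      exact h4
  have h3 : ∀ᶠ ω in (𝒰 : Filter Ω),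
      eval₂ (φ ω) (pt (fun i => s i ω) (yω ω)) (cmp (wv r b) l' (sub m Q)) ≠ 0 := by
    apply hmk0
    rw [← hev, ← hlb, hcmp _ (mk q) hq hQE, if_pos rfl]
    exact mul_ne_zero hq0 (Units.ne_zero _)
  -- the curve is nonconstant
  have h4 : ∃ c c' e e', ∀ᶠ ω in (𝒰 : Filter Ω),
      cf (yω ω) b c e * cf (yω ω) b c' e' ≠ cf (yω ω) b c' e * cf (yω ω) b c e' := by
    by_contra hcon
    push Not at hcon
    obtain ⟨c, c', hx', hnk⟩ := hne
    apply hnk
    let p : Fin M → ℤ → E := fun c e => mk fun ω => cf (yω ω) b c e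
    have hpp : ∀ c c' e e', p c e * p c' e' = p c' e * p c e' := by
      intro c c' e e'
      rw [← sub_eq_zero]
      by_contra hne
      have h5 : mk (((fun ω => cf (yω ω) b c e) * fun ω => cf (yω ω) b c' e') -
          (fun ω => cf (yω ω) b c' e) * fun ω => cf (yω ω) b c e') ≠ 0 := by
        rw [map_sub, map_mul, map_mul]
        exact hne
      have h6 := hmk0 _ h5
      obtain ⟨ω, h7, h8⟩ := (h6.and (hcon c c' e e')).exists
      exact h7 (sub_eq_zero.2 h8)
    have hsum : ∀ c, mk (fun ω => ∑ i, a c i ω * u c i ω) = ∑ e ∈ exps b, p c e := by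
      intro c
      rw [← map_sum]
      congr 1
      funext ω
      rw [Finset.sum_apply]
      have h5 := laur_cf (yω ω) b c 1 (exps b) (mem_exps b c)
      rw [laur_one] at h5
      simp only [one_zpow, mul_one] at h5
      exact h5
    have hpk : ∀ c e i₀ c₀, b c₀ i₀ = e → ∃ κ ∈ k, p c e = κ * (g c₀ i₀ : E) := by
      intro c e i₀ c₀ h0
      refine ⟨∑ i ∈ univ.filter (fun i => b c i = e), mk (a c i) * ((g c i : E) / g c₀ i₀), ?_, ?_⟩
      · refine k.sum_mem fun i hi => k.mul_mem (ha _ _) ?_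
        refine hl2 (some (Sum.inr (c, i))) (some (Sum.inr (c₀, i₀))) ?_
        show b c i = b c₀ i₀
        rw [h0]
        exact (Finset.mem_filter.1 hi).2
      · rw [Finset.sum_mul]
        have h5 : p c e = ∑ i ∈ univ.filter (fun i => b c i = e), mk (a c i) * mk (u c i) := by
          simp only [p, ← map_mul]
          rw [← map_sum]
          congr 1
          funext ω
          rw [Finset.sum_apply]
          rfl
        rw [h5]
        refine Finset.sum_congr rfl fun i _ => ?_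
        rw [mul_assoc, div_mul_cancel₀ _ (Units.ne_zero _), hgu]
    rw [hsum c'] at hx'
    obtain ⟨e, he, hpe⟩ := Finset.exists_ne_zero_of_sum_ne_zero hx'
    obtain ⟨⟨c₀, i₀⟩, -, h0⟩ := Finset.mem_image.1 he
    obtain ⟨κ, hκ, h5⟩ := hpk c e i₀ c₀ h0
    obtain ⟨κ', hκ', h6⟩ := hpk c' e i₀ c₀ h0
    have h7 : (∑ e' ∈ exps b, p c e') * p c' e = (∑ e' ∈ exps b, p c' e') * p c e := by
      rw [Finset.sum_mul, Finset.sum_mul]
      exact Finset.sum_congr rfl fun e' _ => hpp c c' e' e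
    rw [hsum c, hsum c']
    have h8 : κ' ≠ 0 := by
      rintro rfl
      rw [zero_mul] at h6
      exact hpe h6
    have h9 : (∑ e' ∈ exps b, p c e') / (∑ e' ∈ exps b, p c' e') = κ / κ' := by
      rw [div_eq_div_iff hx' h8]
      rw [h5, h6] at h7
      have h10 : (g c₀ i₀ : E) ≠ 0 := Units.ne_zero _
      apply mul_right_cancel₀ h10
      linear_combination h7
    rw [h9]
    exact k.div_mem hκ hκ'
  obtain ⟨c, c', e, e', h4⟩ := h4
  filter_upwards [h1, h2, h3, h4] with ω g1 g2 g3 g4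
  refine ⟨fun j e => ?_, ⟨l', g3, fun e he => ?_⟩, c, c', e, e', g4⟩
  · by_cases he : e ∈ (sub m (G j)).support.image (wt (wv r b))
    · exact g1 j e he
    · rw [cmp_eq_zero _ _ he, eval₂_zero]
  · by_cases he' : e ∈ (sub m Q).support.image (wt (wv r b))
    · exact g2 e he' he
    · rw [cmp_eq_zero _ _ he', eval₂_zero]


end Pool.Agent.W2helper39.FB
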