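import Mathlib
import Pool.Agent.W603.LV.Spec
import Pool.Agent.W2helper39.FB.Fam
import Pool.Agent.W2helper39.FB.Special

/-!
Specialization of curves over function fields.
-/

set_option autoImplicit false
set_option linter.unusedSectionVars false

namespace Pool.Agent.W2helper39.FB

open MvPolynomial FF Filter Pool.Agent.W603.LV
open Pool.Agent.W2helper39.MU hiding GmIn

section spec

variable {L : Type} [Field L] [Algebra ℂ L] [IsFF ℂ L]

theorem exists_spec {n : ℕ} (z : Fin n → L) {τ : Type} (T : Finset τ)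
    (R : τ → MvPolynomial (Fin n) ℂ) (hR : ∀ t ∈ T, aeval z (R t) ≠ 0) :
    ∃ c : Fin n → ℂ, (∀ P : MvPolynomial (Fin n) ℂ, aeval z P = 0 → eval c P = 0) ∧
      ∀ t ∈ T, eval c (R t) ≠ 0 := by
  classical
  obtain ⟨T1, h1⟩ := exists_supp (k := ℂ) Finset.univ z
  obtain ⟨T2, h2⟩ := exists_supp (k := ℂ) T fun t => aeval z (R t)
  obtain ⟨P, hP⟩ := exists_place_not_mem (k := ℂ) (K := L) (T1 ∪ T2)
  rw [Finset.mem_union, not_or] at hP
  have hzP : ∀ j, Ge P 0 (z j) := fun j => Or.inr (by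
    by_contra hcon
    exact hP.1 (h1 j (Finset.mem_univ _) P (fun h => hcon (by rw [h]))))
  choose c hc using fun j => exists_const P (hzP j)
  have hred := red_mvaeval P hzP hc
  refine ⟨c, fun R0 h0 => ?_, fun t ht h0 => ?_⟩
  · have h3 := hred R0
    rw [h0, zero_sub] at h3
    have h4 := h3.neg
    rw [neg_neg] at h4
    exact const_zero P h4
  · have h3 := hred (R t)
    rw [h0, map_zero, sub_zero] at h3
    have h4 := h3.resolve_left (hR t ht)
    have h5 : P.ord (aeval z (R t)) = 0 := by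
      by_contra h
      exact hP.2 (h2 t ht P h)
    omega

theorem exists_spec' {V : Type} [Fintype V] (z : V → L) {τ : Type} (T : Finset τ)
    (R : τ → MvPolynomial V ℂ) (hR : ∀ t ∈ T, aeval z (R t) ≠ 0) :
    ∃ c : V → ℂ, (∀ P : MvPolynomial V ℂ, aeval z P = 0 → eval c P = 0) ∧
      ∀ t ∈ T, eval c (R t) ≠ 0 := by
  classical
  let e : V ≃ Fin (Fintype.card V) := Fintype.equivFin V
  have h1 : ∀ P : MvPolynomial V ℂ, aeval (z ∘ e.symm) (rename e P) = aeval z P := by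
    intro P
    rw [aeval_rename]
    congr 2
    funext v
    simp
  obtain ⟨c, hc1, hc2⟩ := exists_spec (z ∘ e.symm) T (fun t => rename e (R t)) (fun t ht => by
    rw [h1]
    exact hR t ht)
  refine ⟨c ∘ e, fun P hP => ?_, fun t ht => ?_⟩
  · have h2 := hc1 (rename e P) (by rw [h1, hP])
    rwa [eval_rename] at h2
  · have h2 := hc2 t ht
    rwa [eval_rename] at h2

variable {ι κ : Type} {r M m : ℕ} {G : ι → MvPolynomial (Fin r ⊕ Fin M) ℂ}
  {Q : MvPolynomial (Fin r ⊕ Fin M) ℂ} {H : κ → MvPolynomial (Fin r ⊕ Fin M) ℂ}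

/-- the coefficient as a polynomial -/
noncomputable def cfQ (r : ℕ) {M m : ℕ} (b : Fin M → Fin m → ℤ) (c : Fin M) (e : ℤ) :
    MvPolynomial (Vr r M m) ℂ :=
  ∑ i ∈ Finset.univ.filter (fun i => b c i = e), X (Sum.inr (c, i))

theorem aeval_cfQ {F : Type} [Field F] [Algebra ℂ F] (s : Fin r → F) (y : Fin M → Fin m → F)
    (b : Fin M → Fin m → ℤ) (c : Fin M) (e : ℤ) : aeval (pt s y) (cfQ r b c e) = cf y b c e := by
  unfold cfQ cf
  rw [map_sum]
  refine Finset.sum_congr rfl fun i _ => ?_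
  rw [aeval_X]
  rfl

/-- **Specialization of good curves.** -/
theorem good_spec {s : Fin r → L} {y : Fin M → Fin m → L} {b : Fin M → Fin m → ℤ}
    (hg : Good (algebraMap ℂ L) G Q s y b) (P : MvPolynomial (Vr r M m) ℂ)
    (hP : aeval (pt s y) P ≠ 0) :
    ∃ (s' : Fin r → ℂ) (y' : Fin M → Fin m → ℂ), Good (RingHom.id ℂ) G Q s' y' b ∧
      eval₂ (RingHom.id ℂ) (pt s' y') P ≠ 0 ∧ ∀ R : MvPolynomial (Vr r M m) ℂ,
        aeval (pt s y) R = 0 → eval₂ (RingHom.id ℂ) (pt s' y') R = 0 := by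
  classical
  obtain ⟨e₀, hb1, hb2⟩ := hg.bd
  obtain ⟨c, c', e, e', hne⟩ := hg.nc
  obtain ⟨w, hw1, hw2⟩ := exists_spec' (pt s y) (Finset.univ : Finset (Fin 3))
    ![P, cmp (wv r b) e₀ (sub m Q),
      cfQ r b c e * cfQ r b c' e' - cfQ r b c' e * cfQ r b c e'] (fun t _ => by
      fin_cases t
      · exact hP
      · exact hb1
      · show aeval (pt s y) (cfQ r b c e * cfQ r b c' e' - cfQ r b c' e * cfQ r b c e') ≠ 0
        rw [map_sub, map_mul, map_mul, aeval_cfQ, aeval_cfQ, aeval_cfQ, aeval_cfQ]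
        exact sub_ne_zero.2 hne)
  let s' : Fin r → ℂ := fun j => w (Sum.inl j)
  let y' : Fin M → Fin m → ℂ := fun c i => w (Sum.inr (c, i))
  have hpt : pt s' y' = w := by
    funext p
    rcases p with j | p
    · rfl
    · rfl
  have hev : ∀ P : MvPolynomial (Vr r M m) ℂ, eval₂ (RingHom.id ℂ) (pt s' y') P = eval w P := by
    intro P
    rw [hpt, eval₂_id]
  have hcf : ∀ c e, eval w (cfQ r b c e) = cf y' b c e := by
    intro c e
    rw [← aeval_cfQ s' y', hpt]
    rfl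
  refine ⟨s', y', ?_, ?_, fun R hR => ?_⟩
  · refine ⟨fun j e => ?_, ⟨e₀, ?_, fun e he => ?_⟩, c, c', e, e', ?_⟩
    · rw [hev]
      exact hw1 _ (hg.eqs j e)
    · rw [hev]
      exact hw2 1 (Finset.mem_univ _)
    · rw [hev]
      exact hw1 _ (hb2 e he)
    · have h1 := hw2 2 (Finset.mem_univ _)
      have h2 : eval w (cfQ r b c e * cfQ r b c' e' - cfQ r b c' e * cfQ r b c e') ≠ 0 := h1
      rw [map_sub, map_mul, map_mul, hcf, hcf, hcf, hcf] at h2
      exact sub_ne_zero.1 h2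
  · rw [hev]
    exact hw2 0 (Finset.mem_univ _)
  · rw [hev]
    exact hw1 R hR

/-- a good point is in `V'` -/
theorem inV_of_good (h : GmIn m G Q H) {s : Fin r → L} {y : Fin M → Fin m → L}
    {b : Fin M → Fin m → ℤ} (hg : Good (algebraMap ℂ L) G Q s y b) :
    InV (algebraMap ℂ L) H s (fun c => ∑ i, y c i) := by
  by_contra hcon
  unfold InV at hcon
  push Not at hcon
  obtain ⟨j, hj⟩ := hcon
  rw [← MU.eval₂_sub] at hj
  obtain ⟨s', y', hgood, h1, -⟩ := good_spec hg (sub m (H j)) hj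
  obtain ⟨h2, h3⟩ := hgood.curve
  have h4 := h _ _ _ h2 h3 1 one_ne_zero j
  rw [laur_one, ← MU.eval₂_sub] at h4
  exact h1 h4

/-- specialization with constant parameters -/
theorem good_const {s : Fin r → ℂ} {y : Fin M → Fin m → L} {b : Fin M → Fin m → ℤ}
    (hg : Good (algebraMap ℂ L) G Q (const L s) y b) (P : MvPolynomial (Fin r ⊕ Fin M) ℂ)
    (hP : val (algebraMap ℂ L) (const L s) (fun c => ∑ i, y c i) P ≠ 0) :
    ∃ y' : Fin M → Fin m → ℂ, Good (RingHom.id ℂ) G Q s y' b ∧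
      val (RingHom.id ℂ) s (fun c => ∑ i, y' c i) P ≠ 0 := by
  rw [← MU.eval₂_sub] at hP
  obtain ⟨s', y', hgood, h1, h2⟩ := good_spec hg (sub m P) hP
  have h3 : s' = s := by
    funext j
    have h4 := h2 (X (Sum.inl j) - C (s j)) (by
      rw [map_sub, aeval_X, aeval_C]
      exact sub_self _)
    rw [MvPolynomial.eval₂_sub, eval₂_X, eval₂_C] at h4
    exact sub_eq_zero.1 h4
  subst h3
  refine ⟨y', hgood, ?_⟩
  rw [← MU.eval₂_sub]
  exact h1

end spec

end Pool.Agent.W2helper39.FB
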