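import Mathlib
import Pool.Agent.W2helper39.FB.Sp

/-!
The bound for curves whose coordinates are sums of products of units and powers.
-/

set_option autoImplicit false
set_option linter.unusedSectionVars false

namespace Pool.Agent.W2helper39.FB

open MvPolynomial FF Filter Pool.Agent.W603.LV
open Pool.Agent.NH29.GN
open Pool.Agent.W2helper39.MU hiding GmIn
open Pool.Agent.Results.MP_70ba79_ag.SparseCurves (height)

variable {ι κ : Type} {r M m : ℕ} {G : ι → MvPolynomial (Fin r ⊕ Fin M) ℂ}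
  {Q : MvPolynomial (Fin r ⊕ Fin M) ℂ} {H : κ → MvPolynomial (Fin r ⊕ Fin M) ℂ}

/-- a counterexample -/
structure Dat (m : ℕ) (G : ι → MvPolynomial (Fin r ⊕ Fin M) ℂ) (Q : MvPolynomial (Fin r ⊕ Fin M) ℂ)
    (B : ℕ → Finset (Fin M → Fin m → ℤ)) (n : ℕ) where
  L : Type
  [fld : Field L]
  [alg : Algebra ℂ L]
  [ff : IsFF ℂ L]
  S : Finset (Place ℂ L)
  N : ℕ
  hN : n ≤ N
  s : Fin r → L
  a : Fin M → Fin m → L
  u : Fin M → Fin m → L
  q : L
  v : L
  x : Fin M → L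
  h : IsPoint m G Q S N s a u q v x
  hB : ∀ b ∈ B n, ¬ Good (algebraMap ℂ L) G Q s (fun c i => a c i * u c i) b
  ht : (n : ℤ) * size m S s a q < height ℂ x

attribute [instance] Dat.fld Dat.alg Dat.ff

variable {B : ℕ → Finset (Fin M → Fin m → ℤ)}

theorem exists_dat (B : ℕ → Finset (Fin M → Fin m → ℤ)) (h : ¬ ∃ (N₀ C : ℕ) (B : Finset (Fin M → Fin m → ℤ)),
      ∀ (L : Type) [Field L] [Algebra ℂ L] [IsFF ℂ L]
      (S : Finset (Place ℂ L)) (N : ℕ) (s : Fin r → L) (a u : Fin M → Fin m → L) (q v : L)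
      (x : Fin M → L), N₀ ≤ N → IsPoint m G Q S N s a u q v x → height ℂ x ≤ C * size m S s a q ∨
        ∃ b ∈ B, Good (algebraMap ℂ L) G Q s (fun c i => a c i * u c i) b) (n : ℕ) :
    Nonempty (Dat m G Q B n) := by
  by_contra hcon
  apply h
  refine ⟨n, n, B n, fun L _ _ _ S N s a u q v x hN hp => ?_⟩
  by_contra ht
  push Not at ht
  exact hcon ⟨⟨L, S, N, hN, s, a, u, q, v, x, hp, ht.2, ht.1⟩⟩

/-- the right-hand side -/
noncomputable def Dat.W {n : ℕ} (D : Dat m G Q B n) : ℤ := size m D.S D.s D.a D.q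

theorem chi_nonneg {L : Type} [Field L] [Algebra ℂ L] (S : Finset (Place ℂ L)) : 0 ≤ chi S :=
  le_max_right _ _

theorem Dat.parts {n : ℕ} (D : Dat m G Q B n) : chi D.S ≤ D.W ∧ (∀ j, hgt ℂ (D.s j) ≤ D.W) ∧
    (∀ c i, hgt ℂ (D.a c i) ≤ D.W) ∧ hgt ℂ D.q ≤ D.W ∧ 0 ≤ D.W := by
  have h1 := chi_nonneg D.S
  have h2 : 0 ≤ ∑ j, hgt ℂ (D.s j) := Finset.sum_nonneg fun j _ => hgt_nonneg _
  have h3 : 0 ≤ ∑ c, ∑ i, hgt ℂ (D.a c i) :=
    Finset.sum_nonneg fun c _ => Finset.sum_nonneg fun i _ => hgt_nonneg _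
  have h4 : 0 ≤ hgt ℂ D.q := hgt_nonneg _
  refine ⟨?_, fun j => ?_, fun c i => ?_, ?_, ?_⟩
  · unfold Dat.W size
    linarith
  · have h5 : hgt ℂ (D.s j) ≤ ∑ j, hgt ℂ (D.s j) :=
      Finset.single_le_sum (f := fun j => hgt ℂ (D.s j)) (fun j _ => hgt_nonneg _)
        (Finset.mem_univ j)
    unfold Dat.W size
    linarith
  · have h5 : hgt ℂ (D.a c i) ≤ ∑ i, hgt ℂ (D.a c i) :=
      Finset.single_le_sum (f := fun i => hgt ℂ (D.a c i)) (fun j _ => hgt_nonneg _)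
        (Finset.mem_univ i)
    have h6 : ∑ i, hgt ℂ (D.a c i) ≤ ∑ c, ∑ i, hgt ℂ (D.a c i) :=
      Finset.single_le_sum (f := fun c => ∑ i, hgt ℂ (D.a c i))
        (fun c _ => Finset.sum_nonneg fun i _ => hgt_nonneg _) (Finset.mem_univ c)
    unfold Dat.W size
    linarith
  · unfold Dat.W size
    linarith
  · unfold Dat.W size
    linarith

theorem Dat.lt {n : ℕ} (D : Dat m G Q B n) : (n : ℤ) * D.W < height ℂ D.x := D.ht

theorem Dat.pos {n : ℕ} (D : Dat m G Q B n) : 0 < height ℂ D.x :=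
  lt_of_le_of_lt (mul_nonneg (Int.natCast_nonneg n) D.parts.2.2.2.2) D.lt

/-- the sequence of function fields -/
@[reducible] noncomputable def toSeq (D : ∀ n, Dat m G Q B n) : Seq where
  L := fun n => (D n).L
  fld := fun n => (D n).fld
  alg := fun n => (D n).alg
  ff := fun n => (D n).ff
  S := fun n => (D n).S
  N := fun n => (D n).N
  le := fun n => (D n).hN
  H := fun n => height ℂ (D n).x
  nonneg := fun n => (D n).pos.le

theorem hyper_ge (B : ℕ) : ∀ᶠ n in ((hyperfilter ℕ : Ultrafilter ℕ) : Filter ℕ), B ≤ n := by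
  refine hyperfilter_le_cofinite ?_
  rw [Nat.cofinite_eq_atTop]
  exact eventually_ge_atTop B

theorem small_of_le (D : ∀ n, Dat m G Q B n) (f : ∀ n, (D n).L)
    (hf : ∀ n, hgt ℂ (f n) ≤ (D n).W) : (toSeq D).Small (hyperfilter ℕ) f := by
  intro N
  filter_upwards [hyper_ge N] with n hn
  have h2 : (N : ℤ) ≤ n := by exact_mod_cast hn
  calc (N : ℤ) * hgt ℂ (f n) ≤ n * (D n).W :=
        mul_le_mul h2 (hf n) (hgt_nonneg _) (Int.natCast_nonneg n)
    _ ≤ height ℂ (D n).x := (D n).lt.le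

/-- **Points of large degree.** -/
theorem dichotomy [Finite ι] : ∃ (N₀ C : ℕ) (B : Finset (Fin M → Fin m → ℤ)),
    ∀ (L : Type) [Field L] [Algebra ℂ L] [IsFF ℂ L]
      (S : Finset (Place ℂ L)) (N : ℕ) (s : Fin r → L) (a u : Fin M → Fin m → L) (q v : L)
      (x : Fin M → L), N₀ ≤ N → IsPoint m G Q S N s a u q v x → height ℂ x ≤ C * size m S s a q ∨
        ∃ b ∈ B, Good (algebraMap ℂ L) G Q s (fun c i => a c i * u c i) b := by
  classical
  by_contra hcon0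
  obtain ⟨β, hβ⟩ := exists_surjective_nat (Fin M → Fin m → ℤ)
  let B : ℕ → Finset (Fin M → Fin m → ℤ) := fun n => (Finset.range n).image β
  let D : ∀ n, Dat m G Q B n := fun n => (exists_dat B hcon0 n).some
  let 𝒰 : Ultrafilter ℕ := hyperfilter ℕ
  let 𝒟 : Seq := toSeq D
  have hu := fun n => (D n).h.1
  have hv := fun n => (D n).h.2.1
  have hx := fun n => (D n).h.2.2.1
  have x0 := fun n => (D n).h.2.2.2.1
  have hG := fun n => (D n).h.2.2.2.2.1
  have hQ := fun n => (D n).h.2.2.2.2.2.1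
  have q0 := fun n => (D n).h.2.2.2.2.2.2
  obtain ⟨k, hk1, hk2⟩ := 𝒟.exists_small 𝒰
  have hsmall : ∀ f : ∀ n, (D n).L, (∀ n, hgt ℂ (f n) ≤ (D n).W) → 𝒟.cl 𝒰 f ∈ k := by
    intro f hf
    rw [hk1]
    exact small_of_le D f hf
  have hI := 𝒟.indU 𝒰 (fun B => hyper_ge B) (fun N => by
    filter_upwards [hyper_ge N] with n hn
    have h2 : (N : ℤ) ≤ n := by exact_mod_cast hn
    calc (N : ℤ) * chi (D n).S ≤ n * (D n).W :=
          mul_le_mul h2 (D n).parts.1 (chi_nonneg _) (Int.natCast_nonneg n)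
      _ ≤ height ℂ (D n).x := (D n).lt.le) hk1
  have hR : RootC k (𝒟.G 𝒰) := 𝒟.rootC 𝒰 hk2
  -- the ratio which is not small
  have hnot : ∃ c c', 𝒟.cl 𝒰 (fun n => ∑ i, (D n).a c' i * (D n).u c' i) ≠ 0 ∧
      𝒟.cl 𝒰 (fun n => ∑ i, (D n).a c i * (D n).u c i) /
        𝒟.cl 𝒰 (fun n => ∑ i, (D n).a c' i * (D n).u c' i) ∉ k := by
    by_contra hcon
    push Not at hcon
    have hxe : ∀ c, (fun n => ∑ i, (D n).a c i * (D n).u c i) = fun n => (D n).x c := fun c =>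
      funext fun n => (hx n c).symm
    simp only [hxe] at hcon
    have h1 : ∃ c₀, 𝒟.cl 𝒰 (fun n => (D n).x c₀) ≠ 0 := by
      by_contra h2
      push Not at h2
      have h3 : ∀ c, ∀ᶠ n in (𝒰 : Filter ℕ), (D n).x c = 0 := fun c =>
        (𝒟.cl_zero 𝒰 _).1 (h2 c)
      obtain ⟨n, hn⟩ := (eventually_all.2 h3).exists
      exact x0 n (funext hn)
    obtain ⟨c₀, hc₀⟩ := h1
    have h2 : ∀ᶠ n in (𝒰 : Filter ℕ), (D n).x c₀ ≠ 0 := by
      by_contra h3
      apply hc₀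
      rw [𝒟.cl_zero]
      rw [← Ultrafilter.eventually_not] at h3
      filter_upwards [h3] with n h4
      exact not_not.1 h4
    have h3 : ∀ c, 𝒟.Small 𝒰 fun n => (D n).x c / (D n).x c₀ := by
      intro c
      rw [← hk1]
      have h4 : 𝒟.cl 𝒰 (fun n => (D n).x c / (D n).x c₀) =
          𝒟.cl 𝒰 (fun n => (D n).x c) / 𝒟.cl 𝒰 (fun n => (D n).x c₀) := by
        rw [eq_div_iff hc₀, ← map_mul, ← sub_eq_zero, ← map_sub, 𝒟.cl_zero]
        filter_upwards [h2] with n hn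
        show (D n).x c / (D n).x c₀ * (D n).x c₀ - (D n).x c = 0
        rw [div_mul_cancel₀ _ hn, sub_self]
      rw [h4]
      exact hcon c c₀ hc₀
    have h4 : ∀ᶠ n in (𝒰 : Filter ℕ), ∀ c,
        ((2 * M : ℕ) : ℤ) * hgt ℂ ((D n).x c / (D n).x c₀) ≤ height ℂ (D n).x :=
      eventually_all.2 fun c => h3 c _
    obtain ⟨n, h5, h6⟩ := (h2.and h4).exists
    have h8 := height_le (D n).x c₀ h5
    have h9 : ((2 * M : ℕ) : ℤ) * ∑ c, hgt ℂ ((D n).x c / (D n).x c₀) ≤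
        ∑ _c : Fin M, height ℂ (D n).x := by
      rw [Finset.mul_sum]
      exact Finset.sum_le_sum fun c _ => h6 c
    rw [Finset.sum_const, Finset.card_univ, Fintype.card_fin, nsmul_eq_mul] at h9
    have h10 : ((2 * M : ℕ) : ℤ) * height ℂ (D n).x ≤
        ((2 * M : ℕ) : ℤ) * ∑ c, hgt ℂ ((D n).x c / (D n).x c₀) :=
      mul_le_mul_of_nonneg_left h8 (Int.natCast_nonneg _)
    push_cast at h9 h10
    have h11 : (0 : ℤ) < M := by exact_mod_cast c₀.pos
    have h12 := (D n).pos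
    nlinarith
  obtain ⟨b, hb⟩ := specialD 𝒰 (𝒟.cl 𝒰) (𝒟.cl_zero 𝒰) hI hR (fun n => algebraMap ℂ (D n).L)
    (fun c => hsmall _ fun n => by
      rw [hgt_const]
      exact (D n).parts.2.2.2.2) G Q (fun j n => (D n).s j)
    (fun j => hsmall _ fun n => (D n).parts.2.1 j) (fun c i n => (D n).a c i)
    (fun c i n => (D n).u c i) (fun c i => hsmall _ fun n => (D n).parts.2.2.1 c i)
    (fun c i => 𝒟.mem_G 𝒰 fun n => hu n c i) (fun n => (D n).q) (fun n => (D n).v)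
    (hsmall _ fun n => (D n).parts.2.2.2.1) (𝒟.mem_G 𝒰 fun n => hv n) (fun h0 => by
      obtain ⟨n, hn⟩ := ((𝒟.cl_zero 𝒰 _).1 h0).exists
      exact q0 n hn) (fun j => Eventually.of_forall fun n => by
      rw [← hG n j]
      congr 1
      funext c
      exact (hx n c).symm) (Eventually.of_forall fun n => by
      rw [← hQ n]
      congr 1
      funext c
      exact (hx n c).symm) hnot
  obtain ⟨j, hj⟩ := hβ b
  obtain ⟨n, hn1, hn2⟩ := (hb.and (hyper_ge (j + 1))).exists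
  exact (D n).hB b (Finset.mem_image.2 ⟨j, Finset.mem_range.2 hn2, hj⟩) hn1

/-- **The bound.** -/
theorem bound_of_gm [Finite ι] (h : GmIn m G Q H) : PowerBound m G Q H := by
  obtain ⟨N₀, C, B, hD⟩ := dichotomy (m := m) (G := G) (Q := Q)
  refine ⟨N₀, C, fun L _ _ _ S N s a u q v x hN hp hV => ?_⟩
  rcases hD L S N s a u q v x hN hp with h1 | ⟨b, -, hb⟩
  · exact h1
  · exfalso
    apply hV
    have h2 : x = fun c => ∑ i, a c i * u c i := funext fun c => hp.2.2.1 c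
    rw [h2]
    exact inV_of_good h hb

end Pool.Agent.W2helper39.FB
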