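import Mathlib
import Pool.Agent.W2helper39.FB.Defs
import Pool.Agent.W2helper39.MU.Core
import Pool.Agent.W2helper39.MU.Lgt

/-!
Descent of a form which vanishes on all curves with few terms.
-/

set_option autoImplicit false
set_option linter.unusedSectionVars false

namespace Pool.Agent.W2helper39.FB

open MvPolynomial
open Pool.Agent.W2helper39.MU hiding GmIn
open Pool.Agent.TH119.MX Pool.Agent.TH119.DR

section

variable (K₀ : Subfield ℂ) {r M m : ℕ} {ι : Type}

/-- a curve with at most `m` terms in the fibre over `s` of `G = 0`, `Q ≠ 0` -/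
def CrvS (G : ι → MvPolynomial (Fin r ⊕ Fin M) K₀) (Q : MvPolynomial (Fin r ⊕ Fin M) K₀)
    (s : Fin r → ℂ) (a : Fin M → Fin m → ℂ) (b : Fin M → Fin m → ℤ) : Prop :=
  (∀ t, t ≠ 0 → InU K₀.subtype G Q s (laur a b t)) ∧
    ∃ t u c c', t ≠ 0 ∧ u ≠ 0 ∧ laur a b t c * laur a b u c' ≠ laur a b t c' * laur a b u c

variable {K₀}

theorem val_aut (τ : ℂ ≃+* ℂ) (hτ : ∀ x ∈ K₀, τ x = x) (s : Fin r → ℂ) (hs : ∀ j, τ (s j) = s j)
    (z : Fin M → ℂ) (P : MvPolynomial (Fin r ⊕ Fin M) K₀) :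
    val K₀.subtype s (fun c => τ (z c)) P = τ (val K₀.subtype s z P) := by
  unfold val
  have h1 := hom_eval₂ P K₀.subtype (τ : ℂ →+* ℂ) (Sum.elim s z)
  have h2 : (τ : ℂ →+* ℂ).comp K₀.subtype = K₀.subtype := by
    ext x
    exact hτ _ x.2
  rw [h2] at h1
  have h3 : (fun p => (τ : ℂ →+* ℂ) (Sum.elim s z p)) = Sum.elim s fun c => τ (z c) := by
    funext p
    rcases p with j | p
    · exact hs j
    · rfl
  rw [h3] at h1
  exact h1.symm

theorem crvS_aut (τ : ℂ ≃+* ℂ) (hτ : ∀ x ∈ K₀, τ x = x) {s : Fin r → ℂ} (hs : ∀ j, τ (s j) = s j)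
    {G : ι → MvPolynomial (Fin r ⊕ Fin M) K₀} {Q : MvPolynomial (Fin r ⊕ Fin M) K₀}
    {a : Fin M → Fin m → ℂ} {b : Fin M → Fin m → ℤ} (h : CrvS K₀ G Q s a b) :
    CrvS K₀ G Q s (fun c i => τ (a c i)) b := by
  obtain ⟨h1, t, u, c, c', ht, hu, hne⟩ := h
  refine ⟨fun t ht => ?_, τ t, τ u, c, c', by simpa using ht, by simpa using hu, ?_⟩
  · have h0 : t = τ (τ.symm t) := (τ.apply_symm_apply t).symm
    have ht' : τ.symm t ≠ 0 := by simpa using ht
    rw [h0, laur_aut]
    obtain ⟨h2, h3⟩ := h1 _ ht'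
    refine ⟨fun j => ?_, ?_⟩
    · rw [val_aut τ hτ s hs, h2 j, map_zero]
    · rw [val_aut τ hτ s hs]
      simpa using h3
  · rw [laur_aut, laur_aut]
    intro h
    apply hne
    apply τ.injective
    simpa using h

/-- the elements of the field generated by `s` are fractions of polynomials in `s` -/
theorem exists_frac (s : Fin r → ℂ) {v : ℂ}
    (hv : v ∈ Subfield.closure ((K₀ : Set ℂ) ∪ Set.range s)) :
    ∃ p q : MvPolynomial (Fin r) K₀, eval₂ K₀.subtype s q ≠ 0 ∧
      v * eval₂ K₀.subtype s q = eval₂ K₀.subtype s p := by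
  induction hv using Subfield.closure_induction with
  | mem x hx =>
    rcases hx with hx | ⟨j, rfl⟩
    · refine ⟨C (⟨x, hx⟩ : K₀), 1, ?_, ?_⟩
      · simp
      · simp
    · exact ⟨X j, 1, by simp, by simp⟩
  | one => exact ⟨1, 1, by simp, by simp⟩
  | add x y _ _ hx hy =>
    obtain ⟨p, q, hq, h⟩ := hx
    obtain ⟨p', q', hq', h'⟩ := hy
    refine ⟨p * q' + p' * q, q * q', ?_, ?_⟩
    · rw [eval₂_mul]
      exact mul_ne_zero hq hq'
    · rw [eval₂_mul, eval₂_add, eval₂_mul, eval₂_mul, ← h, ← h']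
      ring
  | neg x _ hx =>
    obtain ⟨p, q, hq, h⟩ := hx
    refine ⟨-p, q, hq, ?_⟩
    have h2 : eval₂ K₀.subtype s (-p) = -eval₂ K₀.subtype s p :=
      map_neg (eval₂Hom K₀.subtype s) p
    rw [h2, ← h]
    ring
  | inv x _ hx =>
    obtain ⟨p, q, hq, h⟩ := hx
    by_cases hx0 : x = 0
    · exact ⟨0, 1, by simp, by simp [hx0]⟩
    · refine ⟨q, p, ?_, ?_⟩
      · rw [← h]
        exact mul_ne_zero hx0 hq
      · rw [← h]
        field_simp
  | mul x y _ _ hx hy =>
    obtain ⟨p, q, hq, h⟩ := hx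
    obtain ⟨p', q', hq', h'⟩ := hy
    refine ⟨p * p', q * q', ?_, ?_⟩
    · rw [eval₂_mul]
      exact mul_ne_zero hq hq'
    · rw [eval₂_mul, eval₂_mul, ← h, ← h']
      ring

theorem eval_fib (s : Fin r → ℂ) (z : Fin M → ℂ) (P : MvPolynomial (Fin r ⊕ Fin M) ℂ) :
    eval z (fib s P) = val (RingHom.id ℂ) s z P := by
  unfold fib val
  rw [← aeval_eq_eval]
  refine (MvPolynomial.comp_aeval_apply (f := Sum.elim (fun j => (C (s j) : MvPolynomial (Fin M) ℂ))
    X) (aeval z : MvPolynomial (Fin M) ℂ →ₐ[ℂ] ℂ) P).trans ?_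
  rw [aeval_def]
  congr 1
  funext p
  rcases p with j | p
  · simp
  · simp

theorem val_map (s : Fin r → ℂ) (z : Fin M → ℂ) (P : MvPolynomial (Fin r ⊕ Fin M) K₀) :
    val (RingHom.id ℂ) s z (map K₀.subtype P) = val K₀.subtype s z P := by
  unfold val
  rw [eval₂_map, RingHom.id_comp]

/-- **Descent.** -/
theorem descent (G : ι → MvPolynomial (Fin r ⊕ Fin M) K₀) (Q : MvPolynomial (Fin r ⊕ Fin M) K₀)
    (s : Fin r → ℂ) (Φ : MvPolynomial (Fin M) ℂ) {n : ℕ} (hn : Φ.IsHomogeneous n)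
    (hX : ∃ z, (∀ j, val K₀.subtype s z (G j) = 0) ∧ eval z Φ ≠ 0)
    (hΦ : ∀ (a : Fin M → Fin m → ℂ) (b : Fin M → Fin m → ℤ), CrvS K₀ G Q s a b → ∀ t, t ≠ 0 →
      eval (laur a b t) Φ = 0) :
    ∃ H : MvPolynomial (Fin r ⊕ Fin M) K₀, (∀ s', (fib s' (map K₀.subtype H)).IsHomogeneous n) ∧
      (∃ z, (∀ j, val K₀.subtype s z (G j) = 0) ∧ val K₀.subtype s z H ≠ 0) ∧
      ∀ (a : Fin M → Fin m → ℂ) (b : Fin M → Fin m → ℤ), CrvS K₀ G Q s a b → ∀ t, t ≠ 0 →
        val K₀.subtype s (laur a b t) H = 0 := by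
  classical
  set F : Subfield ℂ := Subfield.closure ((K₀ : Set ℂ) ∪ Set.range s) with hF
  set S := Φ.support with hS
  have hdeg : ∀ α ∈ S, α.degree = n := by
    intro α hα
    rw [Finsupp.degree_eq_weight_one]
    exact hn (mem_support_iff.mp hα)
  have hev : ∀ (v : S → ℂ) (z : Fin M → ℂ), eval z (frm S v) =
      ∑ α : S, v α * α.1.prod fun c e => z c ^ e := by
    intro v z
    exact ev_frm S (RingHom.id ℂ) v z
  let W : Submodule ℂ (S → ℂ) :=
    { carrier := {v | ∀ (a : Fin M → Fin m → ℂ) (b : Fin M → Fin m → ℤ), CrvS K₀ G Q s a b →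
        ∀ t, t ≠ 0 → eval (laur a b t) (frm S v) = 0}
      zero_mem' := by
        intro a b _ t _
        rw [hev]
        simp
      add_mem' := by
        intro v w hv hw a b h t ht
        have h1 := hv a b h t ht
        have h2 := hw a b h t ht
        rw [hev] at h1 h2 ⊢
        simp only [Pi.add_apply, add_mul, Finset.sum_add_distrib]
        rw [h1, h2, add_zero]
      smul_mem' := by
        intro c v hv a b h t ht
        have h1 := hv a b h t ht
        rw [hev] at h1 ⊢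
        simp only [Pi.smul_apply, smul_eq_mul, mul_assoc, ← Finset.mul_sum]
        rw [h1, mul_zero] }
  have hK₀F : ∀ x ∈ K₀, x ∈ F := fun x hx => Subfield.subset_closure (Or.inl hx)
  have hsF : ∀ j, s j ∈ F := fun j => Subfield.subset_closure (Or.inr ⟨j, rfl⟩)
  have hW : DefOver F W := by
    apply defOver_of_aut
    intro τ hτ v hv a b h t ht
    have hτ' : ∀ x ∈ F, τ.symm x = x := by
      intro x hx
      rw [RingEquiv.symm_apply_eq]
      exact (hτ x hx).symm
    have h1 := hv _ b (crvS_aut τ.symm (fun x hx => hτ' x (hK₀F x hx)) (fun j => hτ' _ (hsF j)) h)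
      (τ.symm t) (by simpa using ht)
    rw [laur_aut, hev] at h1
    rw [hev]
    have h2 := congrArg τ h1
    rw [map_zero, map_sum] at h2
    rw [← h2]
    refine Finset.sum_congr rfl fun α _ => ?_
    rw [map_mul]
    congr 1
    rw [Finsupp.prod, Finsupp.prod, map_prod]
    refine Finset.prod_congr rfl fun c _ => ?_
    rw [map_pow, RingEquiv.apply_symm_apply]
  -- the forms which vanish on `X`
  obtain ⟨v, hvW, hvF, z, hz, hzv⟩ : ∃ v : S → ℂ, v ∈ W ∧ (∀ α, v α ∈ F) ∧
      ∃ z, (∀ j, val K₀.subtype s z (G j) = 0) ∧ eval z (frm S v) ≠ 0 := by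
    by_contra hcon
    push Not at hcon
    obtain ⟨z, hz, hz'⟩ := hX
    apply hz'
    have hmem : (fun α : S => coeff α.1 Φ) ∈ W := by
      intro a b h t ht
      rw [frm_coeff]
      exact hΦ a b h t ht
    have h1 := hW hmem
    have h2 : ∀ v ∈ Submodule.span ℂ {w | w ∈ W ∧ ∀ a, w a ∈ F},
        eval z (frm S v) = 0 := by
      intro v hv
      induction hv using Submodule.span_induction with
      | mem w hw => exact hcon w hw.1 hw.2 z hz
      | zero =>
        rw [hev]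
        simp
      | add x y _ _ hx hy =>
        rw [hev] at hx hy ⊢
        simp only [Pi.add_apply, add_mul, Finset.sum_add_distrib]
        rw [hx, hy, add_zero]
      | smul c x _ hx =>
        rw [hev] at hx ⊢
        simp only [Pi.smul_apply, smul_eq_mul, mul_assoc, ← Finset.mul_sum]
        rw [hx, mul_zero]
    have h3 := h2 _ h1
    rwa [frm_coeff] at h3
  choose p q hq hpq using fun α : S => exists_frac s (hvF α)
  let c : S → MvPolynomial (Fin r) K₀ := fun α => p α * ∏ β ∈ Finset.univ.erase α, q β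
  set D : ℂ := ∏ β : S, eval₂ K₀.subtype s (q β) with hD
  have hD0 : D ≠ 0 := Finset.prod_ne_zero_iff.2 fun β _ => hq β
  have hc : ∀ α, eval₂ K₀.subtype s (c α) = v α * D := by
    intro α
    simp only [c]
    rw [eval₂_mul, ← hpq, eval₂_prod, mul_assoc, hD,
      ← Finset.mul_prod_erase Finset.univ (fun β => eval₂ K₀.subtype s (q β)) (Finset.mem_univ α)]
  let H : MvPolynomial (Fin r ⊕ Fin M) K₀ := ∑ α : S, rename Sum.inl (c α) *
    rename Sum.inr (monomial α.1 1)
  have hval : ∀ (s' : Fin r → ℂ) (x : Fin M → ℂ), val K₀.subtype s' x H =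
      ∑ α : S, eval₂ K₀.subtype s' (c α) * α.1.prod fun c e => x c ^ e := by
    intro s' x
    unfold val
    simp only [H]
    rw [eval₂_sum]
    refine Finset.sum_congr rfl fun α _ => ?_
    rw [eval₂_mul, eval₂_rename, eval₂_rename, eval₂_monomial, map_one, one_mul]
    rfl
  have key : ∀ x : Fin M → ℂ, val K₀.subtype s x H = D * eval x (frm S v) := by
    intro x
    rw [hval, hev, Finset.mul_sum]
    refine Finset.sum_congr rfl fun α _ => ?_
    rw [hc]
    ring
  refine ⟨H, fun s' => ?_, ⟨z, hz, ?_⟩, ?_⟩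
  · have h1 : fib s' (map K₀.subtype H) =
        ∑ α : S, C (eval₂ K₀.subtype s' (c α)) * monomial α.1 1 := by
      apply MvPolynomial.funext
      intro x
      rw [eval_fib, val_map, hval, map_sum]
      refine Finset.sum_congr rfl fun α _ => ?_
      rw [map_mul, eval_C, eval_monomial, one_mul]
    rw [h1]
    apply IsHomogeneous.sum
    intro α _
    have h2 := (isHomogeneous_C (Fin M) (eval₂ K₀.subtype s' (c α))).mul
      (isHomogeneous_monomial (1 : ℂ) (hdeg α.1 α.2))
    rwa [zero_add] at h2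
  · rw [key]
    exact mul_ne_zero hD0 hzv
  · intro a b h t ht
    rw [key, hvW a b h t ht, mul_zero]

end

end Pool.Agent.W2helper39.FB
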