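import Mathlib
import Pool.Agent.NH29.GN.Stm3

/-!
Isomorphisms over countable fields: the ultrapower of the complex numbers, and other algebraically
closed fields of the cardinality of the continuum.
-/

set_option autoImplicit false
set_option linter.unusedSectionVars false

namespace Pool.Agent.W2helper39.FB

open Filter Cardinal Pool.Agent.NH29.GN

section iso

variable {R K L : Type} [Field R] [Field K] [Field L] [Algebra R K] [Algebra R L]
  [IsAlgClosed K] [IsAlgClosed L]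

theorem iso_of_basis {ι κ : Type} {v : ι → K} {w : κ → L} (e : ι ≃ κ)
    (hv : IsTranscendenceBasis R v) (hw : IsTranscendenceBasis R w) :
    ∃ θ : K ≃+* L, ∀ x : R, θ (algebraMap R K x) = algebraMap R L x := by
  let _ := IsAlgClosed.isAlgClosure_of_transcendence_basis v hv
  let _ := IsAlgClosed.isAlgClosure_of_transcendence_basis w hw
  let e' : Algebra.adjoin R (Set.range v) ≃ₐ[R] Algebra.adjoin R (Set.range w) :=
    hv.1.aevalEquiv.symm.trans ((MvPolynomial.renameEquiv R e).trans hw.1.aevalEquiv)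
  refine ⟨IsAlgClosure.equivOfEquiv K L e'.toRingEquiv, fun x => ?_⟩
  have h1 : algebraMap R K x = algebraMap (Algebra.adjoin R (Set.range v)) K
      (algebraMap R _ x) := rfl
  rw [h1, IsAlgClosure.equivOfEquiv_algebraMap]
  have h2 : e'.toRingEquiv (algebraMap R _ x) = algebraMap R _ x := e'.commutes x
  rw [h2]
  rfl

/-- two algebraically closed fields of the same uncountable cardinality are isomorphic over a
countable field -/
theorem exists_iso (hR : #R ≤ ℵ₀) (hK : ℵ₀ < #K) (hKL : #K = #L) :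
    ∃ θ : K ≃+* L, ∀ x : R, θ (algebraMap R K x) = algebraMap R L x := by
  obtain ⟨s, hs⟩ := exists_isTranscendenceBasis R K
  obtain ⟨t, ht⟩ := exists_isTranscendenceBasis R L
  have h1 := IsAlgClosed.cardinal_eq_cardinal_transcendence_basis_of_aleph0_lt' _ hs hR hK
  have h2 := IsAlgClosed.cardinal_eq_cardinal_transcendence_basis_of_aleph0_lt' _ ht hR
    (hKL ▸ hK)
  obtain ⟨e⟩ : Nonempty (s ≃ t) := Cardinal.eq.1 (by rw [← h1, ← h2, hKL])
  exact iso_of_basis e hs ht

end iso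

section ultra

variable (𝒰 : Ultrafilter ℕ)

/-- the ultrapower of the complex numbers -/
abbrev UC : Type := UPr 𝒰 (fun _ : ℕ => ℂ)

/-- the class of a sequence -/
noncomputable def clU : (ℕ → ℂ) →+* UC 𝒰 := UPr.mk 𝒰 (fun _ : ℕ => ℂ)

theorem clU_eq (f g : ℕ → ℂ) : clU 𝒰 f = clU 𝒰 g ↔ ∀ᶠ n in (𝒰 : Filter ℕ), f n = g n :=
  UPr.mk_eq 𝒰 (E := fun _ : ℕ => ℂ)

theorem clU_surj (y : UC 𝒰) : ∃ f, clU 𝒰 f = y := UPr.mk_surj 𝒰 (fun _ : ℕ => ℂ) y

/-- the diagonal -/
noncomputable def diagU : ℂ →+* UC 𝒰 := (clU 𝒰).comp (Pi.constRingHom ℕ ℂ)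

theorem exists_root' (n : ℕ) (hn : n ≠ 0) (c : ℕ → ℂ) :
    ∃ z : ℂ, z ^ n + ∑ i ∈ Finset.range n, c i * z ^ i = 0 := by
  have hdeg : (∑ i ∈ Finset.range n, Polynomial.C (c i) * Polynomial.X ^ i :
      Polynomial ℂ).degree < n := by
    rw [Polynomial.degree_lt_iff_coeff_zero]
    intro m hm
    rw [Polynomial.finsetSum_coeff]
    refine Finset.sum_eq_zero fun i hi => ?_
    rw [Polynomial.coeff_C_mul_X_pow, if_neg]
    have := Finset.mem_range.1 hi
    omega
  have hd : (Polynomial.X ^ n + ∑ i ∈ Finset.range n, Polynomial.C (c i) * Polynomial.X ^ i :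
      Polynomial ℂ).degree = n := by
    rw [Polynomial.degree_add_eq_left_of_degree_lt (by rwa [Polynomial.degree_X_pow]),
      Polynomial.degree_X_pow]
  obtain ⟨z, hz⟩ := IsAlgClosed.exists_root
    (Polynomial.X ^ n + ∑ i ∈ Finset.range n, Polynomial.C (c i) * Polynomial.X ^ i :
      Polynomial ℂ) (by rw [hd]; exact_mod_cast hn)
  refine ⟨z, ?_⟩
  rw [Polynomial.IsRoot.def, Polynomial.eval_add, Polynomial.eval_pow, Polynomial.eval_X,
    Polynomial.eval_finsetSum] at hz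
  simpa using hz

theorem isAlgClosed_UC : IsAlgClosed (UC 𝒰) := by
  apply IsAlgClosed.of_exists_root
  intro f hf hirr
  have hn : f.natDegree ≠ 0 := hirr.natDegree_pos.ne'
  choose c hc using fun i => clU_surj 𝒰 (f.coeff i)
  choose z hz using fun p : ℕ => exists_root' f.natDegree hn (fun i => c i p)
  have hzz : z ^ f.natDegree + ∑ i ∈ Finset.range f.natDegree, c i * z ^ i = 0 := by
    funext p
    rw [Pi.add_apply, Finset.sum_apply]
    exact hz p
  refine ⟨clU 𝒰 z, ?_⟩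
  rw [Polynomial.eval_eq_sum_range, Finset.sum_range_succ, hf.coeff_natDegree, one_mul]
  have h1 := congrArg (clU 𝒰) hzz
  rw [map_add, map_sum, map_zero, map_pow] at h1
  rw [← h1, add_comm]
  congr 1
  refine Finset.sum_congr rfl fun i _ => ?_
  rw [map_mul, map_pow, hc]

theorem mk_UC : #(UC 𝒰) = #ℂ := by
  apply le_antisymm
  · have h1 : #(UC 𝒰) ≤ #(ℕ → ℂ) := Cardinal.mk_le_of_surjective (clU_surj 𝒰)
    have h2 : #(ℕ → ℂ) = #ℂ := by
      rw [Cardinal.mk_pi, Cardinal.prod_const, Cardinal.lift_id, Cardinal.lift_id,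
        Cardinal.mk_complex, Cardinal.mk_nat, Cardinal.continuum_power_aleph0]
    rw [← h2]
    exact h1
  · exact Cardinal.mk_le_of_injective (diagU 𝒰).injective

/-- the ultrapower of `ℂ` is isomorphic to `ℂ` over a countable subfield -/
theorem exists_theta (K₀ : Subfield ℂ) (hK : Countable K₀) :
    ∃ θ : UC 𝒰 ≃+* ℂ, ∀ x : K₀, θ (diagU 𝒰 (x : ℂ)) = x := by
  let _ : IsAlgClosed (UC 𝒰) := isAlgClosed_UC 𝒰
  let _ : Algebra K₀ (UC 𝒰) := ((diagU 𝒰).comp K₀.subtype).toAlgebra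
  obtain ⟨θ, hθ⟩ := exists_iso (R := K₀) (K := UC 𝒰) (L := ℂ) (Cardinal.mk_le_aleph0_iff.2 hK)
    (by rw [mk_UC, Cardinal.mk_complex]; exact Cardinal.aleph0_lt_continuum) (mk_UC 𝒰)
  exact ⟨θ, fun x => hθ x⟩

end ultra

end Pool.Agent.W2helper39.FB
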