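import Mathlib
import Pool.Agent.W2helper39.FB.Iso
import Pool.Agent.W2helper39.FB.Desc

/-!
Fields of definition, cardinalities.
-/

set_option autoImplicit false
set_option linter.unusedSectionVars false

namespace Pool.Agent.W2helper39.FB

open MvPolynomial Cardinal FF IntermediateField

/-- the field generated by the coefficients -/
noncomputable def coeffField {σ ι : Type} (P : ι → MvPolynomial σ ℂ) : Subfield ℂ :=
  Subfield.closure {x | ∃ i, ∃ d ∈ (P i).support, x = coeff d (P i)}

theorem countable_coeffField {σ ι : Type} [Countable ι] (P : ι → MvPolynomial σ ℂ) :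
    Countable (coeffField P) := by
  classical
  have h1 : Set.Countable {x | ∃ i, ∃ d ∈ (P i).support, x = coeff d (P i)} := by
    have h2 : {x | ∃ i, ∃ d ∈ (P i).support, x = coeff d (P i)} =
        ⋃ i, (fun d => coeff d (P i)) '' ((P i).support : Set (σ →₀ ℕ)) := by
      ext x
      simp only [Set.mem_ofPred_eq, Set.mem_iUnion, Set.mem_image, Finset.mem_coe]
      constructor
      · rintro ⟨i, d, hd, rfl⟩
        exact ⟨i, d, hd, rfl⟩
      · rintro ⟨i, d, hd, rfl⟩
        exact ⟨i, d, hd, rfl⟩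
    rw [h2]
    exact Set.countable_iUnion fun i => ((P i).support.countable_toSet).image _
  have h3 := Subfield.cardinalMk_closure_le_max {x | ∃ i, ∃ d ∈ (P i).support, x = coeff d (P i)}
  rw [← Cardinal.mk_le_aleph0_iff]
  exact h3.trans (max_le (Cardinal.le_aleph0_iff_set_countable.2 h1) le_rfl)

/-- polynomials with coefficients in a subfield -/
theorem exists_lift {σ : Type} (K₀ : Subfield ℂ) (P : MvPolynomial σ ℂ)
    (h : ∀ d ∈ P.support, coeff d P ∈ K₀) : ∃ P₀ : MvPolynomial σ K₀, map K₀.subtype P₀ = P := by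
  classical
  refine ⟨∑ d : P.support, monomial d.1 (⟨coeff d.1 P, h d.1 d.2⟩ : K₀), ?_⟩
  rw [map_sum]
  simp only [map_monomial, Subfield.coe_subtype]
  rw [Finset.sum_coe_sort P.support fun d => monomial d (coeff d P)]
  exact P.support_sum_monomial_coeff

theorem mem_coeffField {σ ι : Type} (P : ι → MvPolynomial σ ℂ) (i : ι) :
    ∀ d ∈ (P i).support, coeff d (P i) ∈ coeffField P := fun d hd =>
  Subfield.subset_closure ⟨i, d, hd, rfl⟩

theorem mk_L {L : Type} [Field L] [Algebra ℂ L] [IsFF ℂ L] : #L = #ℂ := by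
  apply le_antisymm
  · obtain ⟨t, ht⟩ := IsFF.exists_transcendental (k := ℂ) (K := L)
    have hfin : FiniteDimensional ℂ⟮t⟯ L := IsFF.finite ht
    have halg : Algebra.IsAlgebraic ℂ⟮t⟯ L := Algebra.IsAlgebraic.of_finite _ _
    have h1 := Algebra.IsAlgebraic.cardinalMk_le_max ℂ⟮t⟯ L
    have h2 : #ℂ⟮t⟯ ≤ #ℂ := by
      have h3 := IntermediateField.lift_cardinalMk_adjoin_le ℂ ({t} : Set L)
      simp only [Cardinal.lift_id] at h3
      refine h3.trans (max_le (max_le le_rfl ?_) ?_)
      · rw [Cardinal.mk_singleton, Cardinal.mk_complex]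
        exact (Cardinal.nat_lt_continuum 1).le.trans' (by norm_num)
      · rw [Cardinal.mk_complex]
        exact Cardinal.aleph0_le_continuum
    refine h1.trans (max_le h2 ?_)
    rw [Cardinal.mk_complex]
    exact Cardinal.aleph0_le_continuum
  · exact Cardinal.mk_le_of_injective (algebraMap ℂ L).injective

theorem mk_cl {L : Type} [Field L] [Algebra ℂ L] [IsFF ℂ L] : #(AlgebraicClosure L) = #ℂ := by
  have h1 := Algebra.IsAlgebraic.cardinalMk_le_max L (AlgebraicClosure L)
  rw [mk_L (L := L)] at h1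
  apply le_antisymm
  · refine h1.trans (max_le le_rfl ?_)
    rw [Cardinal.mk_complex]
    exact Cardinal.aleph0_le_continuum
  · exact Cardinal.mk_le_of_injective (algebraMap ℂ (AlgebraicClosure L)).injective

/-- the algebraic closure of a function field -/
theorem exists_cl (K₀ : Subfield ℂ) (hK : Countable K₀) (L : Type) [Field L] [Algebra ℂ L]
    [IsFF ℂ L] : ∃ θ : AlgebraicClosure L ≃+* ℂ,
      ∀ x : K₀, θ (algebraMap L (AlgebraicClosure L) (algebraMap ℂ L (x : ℂ))) = x := by
  let _ : Algebra K₀ (AlgebraicClosure L) :=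
    (((algebraMap L (AlgebraicClosure L)).comp (algebraMap ℂ L)).comp K₀.subtype).toAlgebra
  obtain ⟨θ, hθ⟩ := exists_iso (R := K₀) (K := AlgebraicClosure L) (L := ℂ)
    (Cardinal.mk_le_aleph0_iff.2 hK)
    (by rw [mk_cl, Cardinal.mk_complex]; exact Cardinal.aleph0_lt_continuum) mk_cl
  exact ⟨θ, fun x => hθ x⟩

end Pool.Agent.W2helper39.FB
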