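import Mathlib
import Pool.Agent.W2helper39.FB.Bound
import Pool.Agent.W2helper39.SB.Eng

/-!
The converse: maps of the punctured line of large degree, and the easy implications.
-/

set_option autoImplicit false
set_option linter.unusedSectionVars false

namespace Pool.Agent.W2helper39.FB

open MvPolynomial FF Filter Pool.Agent.W603.LV
open Pool.Agent.W2helper39.SB Pool.Agent.Q72.NA
open Pool.Agent.W2helper39.MU hiding GmIn
open Pool.Agent.Results.MP_70ba79_ag.SparseCurves (height)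

theorem laurent_ne (T : Finset ℤ) (d : ℤ → ℂ) {Y : RatFunc ℂ} (hY : Transcendental ℂ Y) {t : ℂ}
    (ht : t ≠ 0) (h : ∑ e ∈ T, t ^ e * d e ≠ 0) :
    ∑ e ∈ T, Y ^ e * algebraMap ℂ (RatFunc ℂ) (d e) ≠ 0 := by
  classical
  have hY0 : Y ≠ 0 := by
    rintro rfl
    exact hY isAlgebraic_zero
  obtain ⟨N, hN⟩ : ∃ N : ℕ, ∀ e ∈ T, 0 ≤ e + N := by
    refine ⟨∑ e ∈ T, e.natAbs, fun e he => ?_⟩
    have h1 : e.natAbs ≤ ∑ e ∈ T, e.natAbs :=
      Finset.single_le_sum (f := fun e : ℤ => e.natAbs) (fun _ _ => Nat.zero_le _) he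
    omega
  let p : Polynomial ℂ := ∑ e ∈ T, Polynomial.C (d e) * Polynomial.X ^ (e + N).toNat
  have hpow : ∀ {F : Type} [Field F] (w : F), w ≠ 0 → ∀ e ∈ T,
      w ^ (e + N).toNat = w ^ N * w ^ e := by
    intro F _ w hw e he
    rw [← zpow_natCast, ← zpow_natCast, Int.toNat_of_nonneg (hN e he), zpow_add₀ hw, mul_comm]
  have h1 : Polynomial.eval t p = t ^ N * ∑ e ∈ T, t ^ e * d e := by
    simp only [p, Polynomial.eval_finsetSum, Polynomial.eval_mul, Polynomial.eval_C,
      Polynomial.eval_pow, Polynomial.eval_X]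
    rw [Finset.mul_sum]
    refine Finset.sum_congr rfl fun e he => ?_
    rw [hpow t ht e he]
    ring
  have h2 : Polynomial.aeval Y p =
      Y ^ N * ∑ e ∈ T, Y ^ e * algebraMap ℂ (RatFunc ℂ) (d e) := by
    simp only [p, map_sum, map_mul, map_pow, Polynomial.aeval_C, Polynomial.aeval_X]
    rw [Finset.mul_sum]
    refine Finset.sum_congr rfl fun e he => ?_
    rw [hpow Y hY0 e he]
    ring
  intro h0
  rw [h0, mul_zero] at h2
  have h3 : p = 0 := by
    by_contra hp
    exact hY ⟨p, hp, h2⟩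
  rw [h3, Polynomial.eval_zero] at h1
  exact mul_ne_zero (pow_ne_zero _ ht) h h1.symm

variable {ι κ : Type} {r M m : ℕ} {G : ι → MvPolynomial (Fin r ⊕ Fin M) ℂ}
  {Q : MvPolynomial (Fin r ⊕ Fin M) ℂ} {H : κ → MvPolynomial (Fin r ⊕ Fin M) ℂ}

/-- values at constant parameters -/
theorem val_const (s : Fin r → ℂ) (a : Fin M → Fin m → ℂ) (b : Fin M → Fin m → ℤ)
    (P : MvPolynomial (Fin r ⊕ Fin M) ℂ) {Y : RatFunc ℂ} (hY : Y ≠ 0) :
    val (algebraMap ℂ (RatFunc ℂ)) (const (RatFunc ℂ) s)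
      (laur (fun c i => algebraMap ℂ (RatFunc ℂ) (a c i)) b Y) P =
      ∑ e ∈ (sub m P).support.image (wt (wv r b)), Y ^ e *
        algebraMap ℂ (RatFunc ℂ) (eval₂ (RingHom.id ℂ) (pt s a) (cmp (wv r b) e (sub m P))) := by
  rw [val_expand _ _ _ _ _ hY]
  refine Finset.sum_congr rfl fun e _ => ?_
  congr 1
  have h1 := eval₂_comp_left (algebraMap ℂ (RatFunc ℂ)) (RingHom.id ℂ) (pt s a)
    (cmp (wv r b) e (sub m P))
  rw [h1, RingHom.comp_id]
  congr 1
  exact pt_map (algebraMap ℂ (RatFunc ℂ)) s a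

theorem laur_const (a : Fin M → Fin m → ℂ) (b : Fin M → Fin m → ℤ) (c : Fin M) (Y : RatFunc ℂ) :
    laur (fun c i => algebraMap ℂ (RatFunc ℂ) (a c i)) b Y c =
      ∑ e ∈ exps b, Y ^ e * algebraMap ℂ (RatFunc ℂ) (cf a b c e) := by
  rw [laur_cf _ _ _ _ _ (mem_exps b c)]
  refine Finset.sum_congr rfl fun e _ => ?_
  rw [cf_map, mul_comm]

theorem gm_of_fibre (h : FibreBound m G Q H) : GmIn m G Q H := by
  classical
  intro s a b h1 h2
  by_contra hcon
  push Not at hcon
  obtain ⟨t₁, ht₁, hV⟩ := hcon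
  obtain ⟨β, hβ⟩ := h s
  set χ₀ : ℤ := canDeg ℂ (RatFunc ℂ) + (zeroInf).card with hχ₀
  obtain ⟨n, hn⟩ : ∃ n : ℕ, n = (β χ₀).toNat + 1 := ⟨_, rfl⟩
  have hn0 : 0 < n := by omega
  obtain ⟨σ, hσX, hσh⟩ := exists_pow n hn0
  obtain ⟨Y, hY⟩ : ∃ Y : RatFunc ℂ, Y = RatFunc.X ^ n := ⟨_, rfl⟩
  have hX0 : (RatFunc.X : RatFunc ℂ) ≠ 0 := RatFunc.X_ne_zero
  have hXtr : Transcendental ℂ (RatFunc.X : RatFunc ℂ) := RatFunc.transcendental_X
  have hYtr : Transcendental ℂ Y := by
    rw [hY]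
    exact hXtr.pow hn0
  have hY0 : Y ≠ 0 := by
    rw [hY]
    exact pow_ne_zero _ hX0
  let y : Fin M → Fin m → RatFunc ℂ := fun c i => algebraMap ℂ (RatFunc ℂ) (a c i)
  let z : Fin M → RatFunc ℂ := laur y b RatFunc.X
  let x : Fin M → RatFunc ℂ := laur y b Y
  have hσz : ∀ c, σ (z c) = x c := by
    intro c
    simp only [z, x, laur, map_sum, map_mul, map_zpow₀, y, AlgHom.commutes, hσX, hY]
  have hlz : ∀ c, z c = ∑ e ∈ exps b, RatFunc.X ^ e * algebraMap ℂ (RatFunc ℂ) (cf a b c e) :=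
    fun c => laur_const a b c _
  have hla : ∀ c t, laur a b t c = ∑ e ∈ exps b, t ^ e * cf a b c e := by
    intro c t
    rw [laur_cf _ _ _ _ _ (mem_exps b c)]
    exact Finset.sum_congr rfl fun e _ => mul_comm _ _
  obtain ⟨t, u, c, c', ht, hu, hne⟩ := h2
  have hz0 : ∀ c, (∃ t, t ≠ 0 ∧ laur a b t c ≠ 0) → z c ≠ 0 := by
    rintro c ⟨t, ht, h3⟩
    rw [hlz]
    rw [hla] at h3
    exact laurent_ne _ _ hXtr ht h3
  have hzc : z c ≠ 0 := by
    apply hz0
    by_contra h3
    push Not at h3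
    apply hne
    rw [h3 t ht, h3 u hu]
    ring
  have hzc' : z c' ≠ 0 := by
    apply hz0
    by_contra h3
    push Not at h3
    apply hne
    rw [h3 t ht, h3 u hu]
    ring
  have htr : Transcendental ℂ (z c / z c') := by
    refine Pool.Agent.W619.TW.transcendental_of_not_const fun w hw => ?_
    have h3 : z c = algebraMap ℂ (RatFunc ℂ) w * z c' := by
      rw [hw, div_mul_cancel₀ _ hzc']
    have h4 : ∃ t, t ≠ 0 ∧ laur a b t c - w * laur a b t c' ≠ 0 := by
      by_contra h5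
      push Not at h5
      apply hne
      have h6 := h5 t ht
      have h7 := h5 u hu
      linear_combination laur a b u c' * h6 - laur a b t c' * h7
    obtain ⟨t, ht, h4⟩ := h4
    have h5 : laur a b t c - w * laur a b t c' =
        ∑ e ∈ exps b, t ^ e * (cf a b c e - w * cf a b c' e) := by
      rw [hla, hla, Finset.mul_sum, ← Finset.sum_sub_distrib]
      refine Finset.sum_congr rfl fun e _ => ?_
      ring
    rw [h5] at h4
    apply laurent_ne _ _ hXtr ht h4
    have h6 : z c - algebraMap ℂ (RatFunc ℂ) w * z c' = 0 := sub_eq_zero.2 h3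
    rw [hlz, hlz, Finset.mul_sum, ← Finset.sum_sub_distrib] at h6
    rw [← h6]
    refine Finset.sum_congr rfl fun e _ => ?_
    rw [map_sub, map_mul]
    ring
  have hxc : x c ≠ 0 := by
    rw [← hσz]
    exact (map_ne_zero σ).2 hzc
  have hxc' : x c' ≠ 0 := by
    rw [← hσz]
    exact (map_ne_zero σ).2 hzc'
  have hordY : ∀ P : Place ℂ (RatFunc ℂ), P ∉ zeroInf → P.ord Y = 0 := by
    intro P hP
    rw [hY, P.ord_pow, not_mem_zeroInf hP, mul_zero]
  have hunit : ∀ (d : ℂ) (e : ℤ), d ≠ 0 →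
      UnitOff zeroInf (Y ^ e * algebraMap ℂ (RatFunc ℂ) d) := by
    intro d e hd
    have hd' : algebraMap ℂ (RatFunc ℂ) d ≠ 0 := (map_ne_zero _).2 hd
    refine ⟨mul_ne_zero (zpow_ne_zero _ hY0) hd', fun P hP => ?_⟩
    rw [P.ord_mul (zpow_ne_zero _ hY0) hd', P.ord_const hd, P.ord_zpow, hordY P hP]
    simp
  have hgood : Good (RingHom.id ℂ) G Q s a b :=
    Good.of_curve h1 ⟨t, u, c, c', ht, hu, hne⟩
  have hcurve : IsCurve m G Q H zeroInf s x := by
    refine ⟨fun h0 => hxc (by rw [h0]; rfl), ⟨fun c i => y c i * Y ^ b c i, fun c i => ?_,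
      fun c => rfl⟩, fun j => ?_, ?_, ?_⟩
    · by_cases h3 : a c i = 0
      · left
        simp only [y, h3, map_zero, zero_mul]
      · right
        show UnitOff zeroInf (y c i * Y ^ b c i)
        rw [mul_comm]
        exact hunit _ _ h3
    · show val (algebraMap ℂ (RatFunc ℂ)) (const (RatFunc ℂ) s) (laur y b Y) (G j) = 0
      rw [val_const s a b (G j) hY0]
      refine Finset.sum_eq_zero fun e _ => ?_
      rw [hgood.eqs, map_zero, mul_zero]
    · show UnitOff zeroInf (val (algebraMap ℂ (RatFunc ℂ)) (const (RatFunc ℂ) s) (laur y b Y) Q)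
      obtain ⟨e₀, h3, h4⟩ := hgood.bd
      have he : e₀ ∈ (sub m Q).support.image (wt (wv r b)) := by
        by_contra hcon
        rw [cmp_eq_zero _ _ hcon, eval₂_zero] at h3
        exact h3 rfl
      rw [val_const s a b Q hY0, Finset.sum_eq_single e₀]
      · exact hunit _ _ h3
      · intro e _ hne
        rw [h4 e hne, map_zero, mul_zero]
      · intro h2
        exact absurd he h2
    · intro h3
      apply hV
      intro j
      have h4 : val (algebraMap ℂ (RatFunc ℂ)) (const (RatFunc ℂ) s) (laur y b Y) (H j) = 0 := h3 j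
      rw [val_const s a b (H j) hY0] at h4
      by_contra h5
      rw [val_expand _ _ _ _ _ ht₁] at h5
      exact laurent_ne _ _ hYtr ht₁ h5 h4
  have h3 : height ℂ x ≤ β χ₀ := hβ _ _ _ hcurve
  have h4 := hσh _ htr
  rw [map_div₀, hσz, hσz] at h4
  have h5 := hgt_le_height (k := ℂ) x c c' hxc hxc'
  omega

theorem fibre_of_linear (h : LinearBound m G Q H) : FibreBound m G Q H := by
  obtain ⟨C, hC⟩ := h
  exact fun s => ⟨fun χ => C * max χ 0, fun L _ _ _ S x hx => hC s L S x hx⟩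

theorem linear_of_power (h : PowerBound m G Q H) : LinearBound m G Q H := by
  classical
  obtain ⟨N₀, C, hC⟩ := h
  refine ⟨C, fun s L _ _ _ S x hx => ?_⟩
  obtain ⟨hx0, ⟨t, ht, hxt⟩, hG, hQ, hV⟩ := hx
  have h1 := hC L S N₀ (const L s) (fun c i => if t c i = 0 then 0 else 1)
    (fun c i => if t c i = 0 then 1 else t c i) 1 (val (algebraMap ℂ L) (const L s) x Q) x le_rfl
    ⟨fun c i => by
      show PowerOff S N₀ (if t c i = 0 then 1 else t c i)
      by_cases h0 : t c i = 0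
      · rw [if_pos h0]
        exact PowerOff.one
      · rw [if_neg h0]
        have h2 := (ht c i).resolve_left h0
        exact ⟨h2.1, fun P hP => by rw [h2.2 P hP]; exact dvd_zero _⟩,
    ⟨hQ.1, fun P hP => by rw [hQ.2 P hP]; exact dvd_zero _⟩,
    fun c => by
      rw [hxt]
      refine Finset.sum_congr rfl fun i _ => ?_
      by_cases h0 : t c i = 0
      · simp [h0]
      · simp [h0],
    hx0, hG, (one_mul _).symm, one_ne_zero⟩ hV
  have h2 : ∑ j, hgt ℂ (const L s j) = 0 := Finset.sum_eq_zero fun j _ => hgt_const _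
  have h3 : ∑ c, ∑ i, hgt ℂ (if t c i = 0 then (0 : L) else 1) = 0 := by
    refine Finset.sum_eq_zero fun c _ => Finset.sum_eq_zero fun i _ => ?_
    by_cases h0 : t c i = 0
    · rw [if_pos h0, hgt_zero]
    · rw [if_neg h0, hgt_one]
  unfold size at h1
  rw [h2, h3, hgt_one, add_zero, add_zero, add_zero] at h1
  exact h1

theorem tfae [Finite ι] : List.TFAE [GmIn m G Q H, FibreBound m G Q H, LinearBound m G Q H,
    PowerBound m G Q H] := by
  tfae_have 1 → 4 := bound_of_gm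
  tfae_have 4 → 3 := linear_of_power
  tfae_have 3 → 2 := fibre_of_linear
  tfae_have 2 → 1 := gm_of_fibre
  tfae_finish

end Pool.Agent.W2helper39.FB
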