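import Mathlib
import Pool.Agent.W2helper39.FB.Conv
import Pool.Agent.W2helper39.BR.Dom

/-!
The complement of a divisor of log general type.
-/

set_option autoImplicit false
set_option linter.unusedSectionVars false

namespace Pool.Agent.W2helper39.FB

open MvPolynomial
open Pool.Agent.Results.MP_70ba79_ag.SparseCurves
open Pool.Agent.W2helper39.BR (GmQ gmQ_of)
open Pool.Agent.W2helper39.MU (val InU InV laur)

theorem hom_zero {M n : ℕ} {Φ : MvPolynomial (Fin M) ℂ} (hn : Φ.IsHomogeneous n) (hn0 : n ≠ 0) :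
    eval (0 : Fin M → ℂ) Φ = 0 := by
  rw [eval_eq]
  apply Finset.sum_eq_zero
  intro α hα
  have h1 : α.degree = n := by
    rw [Finsupp.degree_eq_weight_one]
    exact hn (mem_support_iff.mp hα)
  have h2 : α ≠ 0 := by
    rintro rfl
    apply hn0
    rw [← h1, map_zero]
  obtain ⟨c, hc⟩ := Finsupp.ne_iff.mp h2
  rw [Finset.prod_eq_zero (Finsupp.mem_support_iff.mpr hc), mul_zero]
  rw [Pi.zero_apply, zero_pow hc]

/-- from the curves through a given point to all curves -/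
theorem curve_of_gmQ {m M : ℕ} {ι : Type} {G : ι → MvPolynomial (Fin M) ℂ}
    {Q Φ : MvPolynomial (Fin M) ℂ} {n : ℕ} (hn : Φ.IsHomogeneous n) (hΦ : GmQ m G Q Φ)
    {a : Fin M → Fin m → ℂ} {b : Fin M → Fin m → ℤ}
    (h1 : ∀ t, t ≠ 0 → (∀ j, eval (laur a b t) (G j) = 0) ∧ eval (laur a b t) Q ≠ 0)
    (h2 : ∃ t u c c', t ≠ 0 ∧ u ≠ 0 ∧ laur a b t c * laur a b u c' ≠ laur a b t c' * laur a b u c)
    (t : ℂ) (ht : t ≠ 0) : eval (laur a b t) Φ = 0 := by
  have key : ∀ t, t ≠ 0 → laur a b t ≠ 0 → eval (laur a b t) Φ = 0 := by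
    intro z hz hx
    have h3 := hΦ (fun t => laur a b (z * t)) (fun c => ?_) (by simpa using hx)
      (fun i t ht => (h1 _ (mul_ne_zero hz ht)).1 i) (fun t ht => (h1 _ (mul_ne_zero hz ht)).2) ?_
    · simpa using h3
    · refine ⟨fun j => a c j * z ^ b c j, b c, fun t ht => ?_⟩
      simp only [laur]
      refine Finset.sum_congr rfl fun j _ => ?_
      rw [mul_zpow]
      ring
    · obtain ⟨z1, z2, c, c', hz1, hz2, hnc⟩ := h2
      by_contra hcon
      push Not at hcon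
      simp only [mul_one] at hcon
      obtain ⟨k, hk⟩ := Function.ne_iff.mp hx
      have hk' : laur a b z k ≠ 0 := hk
      have h1 : ∀ s j, s ≠ 0 → laur a b s j * laur a b z k = laur a b s k * laur a b z j := by
        intro s j hs
        have h2 := hcon (z⁻¹ * s) j k (mul_ne_zero (inv_ne_zero hz) hs)
        rw [mul_inv_cancel_left₀ hz] at h2
        exact h2
      apply hnc
      have h3 := h1 z1 c hz1
      have h4 := h1 z1 c' hz1
      have h5 := h1 z2 c hz2
      have h6 := h1 z2 c' hz2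
      apply mul_right_cancel₀ (mul_ne_zero hk' hk')
      linear_combination laur a b z2 c' * laur a b z k * h3 + laur a b z1 k * laur a b z c * h6 -
        laur a b z2 c * laur a b z k * h4 - laur a b z1 k * laur a b z c' * h5
  by_cases h0 : laur a b t = 0
  · by_cases hn0 : n = 0
    · obtain ⟨z1, z2, c, c', hz1, hz2, hnc⟩ := h2
      have h2 : ∃ z, z ≠ 0 ∧ laur a b z ≠ 0 := by
        by_contra hcon
        push Not at hcon
        apply hnc
        rw [hcon z1 hz1, hcon z2 hz2]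
        simp
      obtain ⟨z, hz, hz'⟩ := h2
      have h3 := key z hz hz'
      rw [hn0] at hn
      have h4 : Φ = C (coeff 0 Φ) :=
        totalDegree_eq_zero_iff_eq_C.mp (Nat.le_zero.mp hn.totalDegree_le)
      rw [h4, eval_C] at h3 ⊢
      exact h3
    · rw [h0]
      exact hom_zero hn hn0
  · exact key t ht h0

theorem val_rename {m : ℕ} (t : Fin 0 → ℂ) (x : Fin m → ℂ) (P : MvPolynomial (Fin m) ℂ) :
    val (RingHom.id ℂ) t x (rename Sum.inr P) = eval x P := by
  rw [val, eval₂_rename, ← eval₂_id]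
  rfl

/-- **Pairs of log general type.** -/
theorem lgt (m : ℕ) {N s g q w : ℕ} (G : Fin g → MvPolynomial (Fin (N + 1 + s)) ℂ) {e : Fin g → ℕ}
    (E : Fin q → Fin w → MvPolynomial (Fin (N + 1 + s)) ℂ) {d : Fin q → Fin w → ℕ}
    (Q : MvPolynomial (Fin (N + 1 + s)) ℂ) {δ : ℕ}
    (hG : ∀ j, (G j).IsHomogeneous (e j)) (hE : ∀ i j, (E i j).IsHomogeneous (d i j))
    (hdim : DimGE N G) (hsm : SmoothPair s G E) (hirr : Irred G) (hlgt : LogGeneralType N G E d)
    (hQh : Q.IsHomogeneous δ)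
    (hQ : ∀ z : Fin (N + 1 + s) → ℂ, z ≠ 0 → OnX G z →
      (aeval z Q ≠ 0 ↔ ∀ i, ∃ j, aeval z (E i j) ≠ 0))
    (hne : ∃ z : Fin (N + 1 + s) → ℂ, z ≠ 0 ∧ OnX G z ∧ aeval z Q ≠ 0) :
    ∃ H : MvPolynomial (Fin (N + 1 + s)) ℂ, (∃ n, H.IsHomogeneous n) ∧
      (∃ z : Fin (N + 1 + s) → ℂ, z ≠ 0 ∧ OnX G z ∧ aeval z Q ≠ 0 ∧ aeval z H ≠ 0) ∧
      GmIn (r := 0) m (fun j => rename Sum.inr (G j)) (rename Sum.inr Q)
        (fun _ : Unit => rename Sum.inr H) := by
  obtain ⟨Φ, n, B, hn, ⟨x1, hx1, hx1Φ⟩, hmain⟩ :=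
    (Pool.Agent.Results.MP_70ba79_ag.SparseCurves.result (k := ℂ)
      N s g q w m G e hG E d hE hdim hsm).2 hirr hlgt
  have hgm : GmQ m G Q Φ :=
    gmQ_of hG hE Q hQh (fun z hz hzX hzQ => (hQ z hz hzX).mp hzQ) Φ B hmain
  refine ⟨Φ, ⟨n, hn⟩, ?_, ?_⟩
  · -- the form does not vanish on `X - D`
    by_contra hcon
    push Not at hcon
    obtain ⟨x0, hx0, hx0G, hx0Q⟩ := hne
    obtain ⟨j, hj⟩ := Function.ne_iff.mp hx0
    rcases hirr Φ (Q * X j) (fun z hz => by
      by_cases hzQ : aeval z Q = 0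
      · rw [map_mul, hzQ, zero_mul, mul_zero]
      by_cases hz0 : z = 0
      · rw [map_mul, aeval_X, hz0, Pi.zero_apply, mul_zero, mul_zero]
      · rw [hcon z hz0 hz hzQ, zero_mul]) with h | h
    · exact hx1Φ (h x1 hx1)
    · have h5 := h x0 hx0G
      rw [map_mul, aeval_X] at h5
      exact mul_ne_zero hx0Q hj h5
  · intro t0 a b hU hnc t ht j
    rw [val_rename]
    refine curve_of_gmQ hn hgm (fun t ht => ?_) hnc t ht
    obtain ⟨h1, h2⟩ := hU t ht
    refine ⟨fun j => ?_, ?_⟩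
    · have := h1 j
      rwa [val_rename] at this
    · rwa [val_rename] at h2

end Pool.Agent.W2helper39.FB
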