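import Mathlib
import Pool.Agent.W2helper39.FB.Iso
import Pool.Agent.W2helper39.MU.Core

/-!
The exponents of a sequence of curves, and the limit of a sequence of curves.
-/

set_option autoImplicit false
set_option linter.unusedSectionVars false

namespace Pool.Agent.W2helper39.FB

open MvPolynomial Filter
open Pool.Agent.W2helper39.MU hiding GmIn

theorem exists_ev {𝒰 : Ultrafilter ℕ} {τ : Type} (T : Finset τ) (p : τ → ℕ → Prop)
    (h : ∀ᶠ n in (𝒰 : Filter ℕ), ∃ t ∈ T, p t n) : ∃ t ∈ T, ∀ᶠ n in (𝒰 : Filter ℕ), p t n := by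
  by_contra hcon
  have h1 : ∀ t ∈ T, ∀ᶠ n in (𝒰 : Filter ℕ), ¬ p t n := fun t ht =>
    Ultrafilter.eventually_not.2 fun h2 => hcon ⟨t, ht, h2⟩
  have h2 := (Finset.eventually_all (l := (𝒰 : Filter ℕ)) (I := T)
    (p := fun t n => ¬ p t n)).2 h1
  obtain ⟨n, ⟨t, ht, h3⟩, h4⟩ := (h.and h2).exists
  exact h4 t ht h3

section pat

variable {A : Type} [CommRing A] {r M m : ℕ}

/-- the same equalities between the weights -/
def SamePat (T : Finset (Vr r M m →₀ ℕ)) (b b' : Fin M → Fin m → ℤ) : Prop :=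
  (∀ μ ∈ T, ∀ μ' ∈ T, (wt (wv r b) μ = wt (wv r b) μ' ↔ wt (wv r b') μ = wt (wv r b') μ')) ∧
    ∀ p p' : Fin M × Fin m, (b p.1 p.2 = b p'.1 p'.2 ↔ b' p.1 p.2 = b' p'.1 p'.2)

theorem exists_pat (𝒰 : Ultrafilter ℕ) (T : Finset (Vr r M m →₀ ℕ))
    (b : ℕ → Fin M → Fin m → ℤ) : ∃ b₀, ∀ᶠ n in (𝒰 : Filter ℕ), SamePat T (b n) b₀ := by
  classical
  let τ : Type := (T × T → Prop) × ((Fin M × Fin m) × (Fin M × Fin m) → Prop)
  let f : ℕ → τ := fun n => (fun p => wt (wv r (b n)) p.1.1 = wt (wv r (b n)) p.2.1,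
    fun p => b n p.1.1 p.1.2 = b n p.2.1 p.2.2)
  have : Finite τ := inferInstance
  let _ : Fintype τ := Fintype.ofFinite τ
  obtain ⟨v, -, hv⟩ := exists_ev (𝒰 := 𝒰) (Finset.univ : Finset τ) (fun v n => f n = v)
    (Eventually.of_forall fun n => ⟨f n, Finset.mem_univ _, rfl⟩)
  obtain ⟨n₀, hn₀⟩ := hv.exists
  refine ⟨b n₀, ?_⟩
  filter_upwards [hv] with n hn
  have h1 : f n = f n₀ := hn.trans hn₀.symm
  have h2 := congrArg Prod.fst h1
  have h3 := congrArg Prod.snd h1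
  refine ⟨fun μ hμ μ' hμ' => ?_, fun p p' => ?_⟩
  · exact iff_of_eq (congrFun h2 (⟨μ, hμ⟩, ⟨μ', hμ'⟩))
  · exact iff_of_eq (congrFun h3 (p, p'))

variable {T : Finset (Vr r M m →₀ ℕ)} {b b' : Fin M → Fin m → ℤ}

theorem cmp_pat (h : SamePat T b b') {P : MvPolynomial (Vr r M m) A} (hP : P.support ⊆ T)
    {μ : Vr r M m →₀ ℕ} (hμ : μ ∈ P.support) :
    cmp (wv r b') (wt (wv r b') μ) P = cmp (wv r b) (wt (wv r b) μ) P := by
  unfold MU.cmp
  congr 1
  apply Finset.filter_congr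
  intro d hd
  exact (h.1 d (hP hd) μ (hP hμ)).symm

theorem cf_pat {F : Type} [Field F] (h : SamePat T b b') (y : Fin M → Fin m → F) (c c₀ : Fin M)
    (i₀ : Fin m) : cf y b' c (b' c₀ i₀) = cf y b c (b c₀ i₀) := by
  unfold cf
  congr 1
  apply Finset.filter_congr
  intro i _
  exact (h.2 (c, i) (c₀, i₀)).symm

theorem good_pat {F ι : Type} [Field F] {φ : A →+* F} {G : ι → MvPolynomial (Fin r ⊕ Fin M) A}
    {Q : MvPolynomial (Fin r ⊕ Fin M) A} {s : Fin r → F} {y : Fin M → Fin m → F}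
    (h : SamePat T b b') (hG : ∀ j, (sub m (G j)).support ⊆ T) (hQ : (sub m Q).support ⊆ T)
    (hg : Good φ G Q s y b) : Good φ G Q s y b' := by
  classical
  refine ⟨fun j e => ?_, ?_, ?_⟩
  · by_cases he : e ∈ (sub m (G j)).support.image (wt (wv r b'))
    · obtain ⟨μ, hμ, rfl⟩ := Finset.mem_image.1 he
      rw [cmp_pat h (hG j) hμ]
      exact hg.eqs j _
    · rw [cmp_eq_zero _ _ he, eval₂_zero]
  · obtain ⟨e₀, h1, h2⟩ := hg.bd
    have he : e₀ ∈ (sub m Q).support.image (wt (wv r b)) := by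
      by_contra hcon
      rw [cmp_eq_zero _ _ hcon, eval₂_zero] at h1
      exact h1 rfl
    obtain ⟨μ₀, hμ₀, rfl⟩ := Finset.mem_image.1 he
    refine ⟨wt (wv r b') μ₀, ?_, fun e hne => ?_⟩
    · rw [cmp_pat h hQ hμ₀]
      exact h1
    · by_cases he' : e ∈ (sub m Q).support.image (wt (wv r b'))
      · obtain ⟨μ, hμ, rfl⟩ := Finset.mem_image.1 he'
        rw [cmp_pat h hQ hμ]
        apply h2
        intro h3
        exact hne ((h.1 μ (hQ hμ) μ₀ (hQ hμ₀)).1 h3)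
      · rw [cmp_eq_zero _ _ he', eval₂_zero]
  · obtain ⟨c, c', e, e', hne⟩ := hg.nc
    have he : e ∈ exps b := by
      by_contra h1
      rw [cf_eq_zero h1, cf_eq_zero h1, zero_mul, zero_mul] at hne
      exact hne rfl
    have he' : e' ∈ exps b := by
      by_contra h1
      rw [cf_eq_zero h1, cf_eq_zero h1, mul_zero, mul_zero] at hne
      exact hne rfl
    obtain ⟨p, -, rfl⟩ := Finset.mem_image.1 he
    obtain ⟨p', -, rfl⟩ := Finset.mem_image.1 he'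
    refine ⟨c, c', b' p.1 p.2, b' p'.1 p'.2, ?_⟩
    rw [cf_pat h, cf_pat h, cf_pat h, cf_pat h]
    exact hne

end pat

section lim

variable {A : Type} [CommRing A] {𝒰 : Ultrafilter ℕ} {φ : A →+* ℂ} {θ : UC 𝒰 ≃+* ℂ}

theorem eval_theta (hθ : ∀ x : A, θ (diagU 𝒰 (φ x)) = φ x) {V : Type} (z : ℕ → V → ℂ)
    (P : MvPolynomial V A) : eval₂ φ (fun p => θ (clU 𝒰 fun n => z n p)) P =
      θ (clU 𝒰 fun n => eval₂ φ (z n) P) := by
  let V' : V → ℕ → ℂ := fun p n => z n p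
  let ρ : A →+* (ℕ → ℂ) := (Pi.constRingHom ℕ ℂ).comp φ
  have h2 : eval₂ ρ V' P = fun n => eval₂ φ (z n) P := by
    funext n
    exact eval₂_comp_left (Pi.evalRingHom (fun _ : ℕ => ℂ) n) ρ V' P
  have h3 := eval₂_comp_left ((θ : UC 𝒰 →+* ℂ).comp (clU 𝒰)) ρ V' P
  rw [h2] at h3
  have h4 : (((θ : UC 𝒰 →+* ℂ).comp (clU 𝒰)).comp ρ) = φ := by
    ext x
    exact hθ x
  rw [h4] at h3
  exact h3.symm

theorem theta_zero (f : ℕ → ℂ) : θ (clU 𝒰 f) = 0 ↔ ∀ᶠ n in (𝒰 : Filter ℕ), f n = 0 := by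
  rw [map_eq_zero_iff θ θ.injective, ← map_zero (clU 𝒰), clU_eq]
  rfl

theorem theta_ne (f : ℕ → ℂ) : θ (clU 𝒰 f) ≠ 0 ↔ ∀ᶠ n in (𝒰 : Filter ℕ), f n ≠ 0 := by
  rw [Ne, theta_zero, ← Ultrafilter.eventually_not]

variable {ι : Type} {r M m : ℕ} {G : ι → MvPolynomial (Fin r ⊕ Fin M) A}
  {Q : MvPolynomial (Fin r ⊕ Fin M) A}

theorem pt_theta (s : ℕ → Fin r → ℂ) (y : ℕ → Fin M → Fin m → ℂ) :
    pt (fun j => θ (clU 𝒰 fun n => s n j)) (fun c i => θ (clU 𝒰 fun n => y n c i)) =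
      fun p => θ (clU 𝒰 fun n => pt (s n) (y n) p) := by
  funext p
  rcases p with j | p
  · rfl
  · rfl

theorem cf_theta (y : ℕ → Fin M → Fin m → ℂ) (b : Fin M → Fin m → ℤ) (c : Fin M) (e : ℤ) :
    cf (fun c i => θ (clU 𝒰 fun n => y n c i)) b c e = θ (clU 𝒰 fun n => cf (y n) b c e) := by
  unfold cf
  rw [← map_sum, ← map_sum]
  congr 2
  funext n
  rw [Finset.sum_apply]

/-- the limit of good curves with the same exponents -/
theorem good_theta (hθ : ∀ x : A, θ (diagU 𝒰 (φ x)) = φ x) (s : ℕ → Fin r → ℂ)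
    (y : ℕ → Fin M → Fin m → ℂ) (b : Fin M → Fin m → ℤ)
    (h : ∀ᶠ n in (𝒰 : Filter ℕ), Good φ G Q (s n) (y n) b) :
    Good φ G Q (fun j => θ (clU 𝒰 fun n => s n j)) (fun c i => θ (clU 𝒰 fun n => y n c i)) b := by
  classical
  have hev : ∀ P : MvPolynomial (Vr r M m) A,
      eval₂ φ (pt (fun j => θ (clU 𝒰 fun n => s n j)) fun c i => θ (clU 𝒰 fun n => y n c i)) P =
        θ (clU 𝒰 fun n => eval₂ φ (pt (s n) (y n)) P) := by
    intro P
    rw [pt_theta]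
    exact eval_theta hθ (fun n => pt (s n) (y n)) P
  refine ⟨fun j e => ?_, ?_, ?_⟩
  · rw [hev, theta_zero]
    filter_upwards [h] with n hn
    exact hn.eqs j e
  · obtain ⟨e₀, -, he₀⟩ := exists_ev (𝒰 := 𝒰) ((sub m Q).support.image (wt (wv r b)))
      (fun e₀ n => eval₂ φ (pt (s n) (y n)) (cmp (wv r b) e₀ (sub m Q)) ≠ 0 ∧
        ∀ e, e ≠ e₀ → eval₂ φ (pt (s n) (y n)) (cmp (wv r b) e (sub m Q)) = 0) (by
      filter_upwards [h] with n hn
      obtain ⟨e₀, h1, h2⟩ := hn.bd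
      refine ⟨e₀, ?_, h1, h2⟩
      by_contra hcon
      rw [cmp_eq_zero _ _ hcon, eval₂_zero] at h1
      exact h1 rfl)
    refine ⟨e₀, ?_, fun e he => ?_⟩
    · rw [hev, theta_ne]
      filter_upwards [he₀] with n hn
      exact hn.1
    · rw [hev, theta_zero]
      filter_upwards [he₀] with n hn
      exact hn.2 e he
  · obtain ⟨q, -, hq⟩ := exists_ev (𝒰 := 𝒰)
      ((Finset.univ : Finset (Fin M × Fin M)) ×ˢ ((exps b) ×ˢ (exps b)))
      (fun q n => cf (y n) b q.1.1 q.2.1 * cf (y n) b q.1.2 q.2.2 ≠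
        cf (y n) b q.1.2 q.2.1 * cf (y n) b q.1.1 q.2.2) (by
      filter_upwards [h] with n hn
      obtain ⟨c, c', e, e', hne⟩ := hn.nc
      refine ⟨((c, c'), (e, e')), ?_, hne⟩
      have he : e ∈ exps b := by
        by_contra h1
        rw [cf_eq_zero h1, cf_eq_zero h1, zero_mul, zero_mul] at hne
        exact hne rfl
      have he' : e' ∈ exps b := by
        by_contra h1
        rw [cf_eq_zero h1, cf_eq_zero h1, mul_zero, mul_zero] at hne
        exact hne rfl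
      exact Finset.mem_product.2 ⟨Finset.mem_univ _, Finset.mem_product.2 ⟨he, he'⟩⟩)
    obtain ⟨⟨c, c'⟩, e, e'⟩ := q
    refine ⟨c, c', e, e', ?_⟩
    rw [cf_theta, cf_theta, cf_theta, cf_theta, ← map_mul, ← map_mul, ← map_mul, ← map_mul]
    intro h0
    have h1 := θ.injective h0
    rw [clU_eq] at h1
    obtain ⟨n, h2, h3⟩ := (hq.and h1).exists
    exact h2 h3

end lim

end Pool.Agent.W2helper39.FB
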