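import Mathlib
import Pool.Agent.W2helper39.FB.Pat
import Pool.Agent.W2helper39.FB.Desc
import Pool.Agent.W2helper39.FB.Fld
import Pool.Agent.W2helper39.FB.Lgt

/-!
A finite list of exceptional sets for a family of varieties of log general type.
-/

set_option autoImplicit false
set_option linter.unusedSectionVars false

namespace Pool.Agent.W2helper39.FB

open MvPolynomial Filter
open Pool.Agent.W2helper39.MU hiding GmIn lgt hom_zero
open Pool.Agent.Results.MP_70ba79_ag.SparseCurves (OnX DimGE SmoothPair Irred LogGeneralType)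

section

variable {K₀ : Subfield ℂ} {r M m : ℕ} {ι : Type}

/-- `H` is suitable for the parameter `s` -/
def Works (m : ℕ) (G : ι → MvPolynomial (Fin r ⊕ Fin M) K₀)
    (Q H : MvPolynomial (Fin r ⊕ Fin M) K₀) (s : Fin r → ℂ) : Prop :=
  (∃ z : Fin M → ℂ, z ≠ 0 ∧ InU K₀.subtype G Q s z ∧ val K₀.subtype s z H ≠ 0) ∧
    ∀ (a : Fin M → Fin m → ℂ) (b : Fin M → Fin m → ℤ), CrvS K₀ G Q s a b → ∀ t, t ≠ 0 →
      val K₀.subtype s (laur a b t) H = 0

variable {G : ι → MvPolynomial (Fin r ⊕ Fin M) K₀} {Q H : MvPolynomial (Fin r ⊕ Fin M) K₀}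

theorem laur_scale (a : Fin M → Fin m → ℂ) (b : Fin M → Fin m → ℤ) (t u : ℂ) :
    laur (fun c i => a c i * t ^ b c i) b u = laur a b (t * u) := by
  funext c
  simp only [laur]
  refine Finset.sum_congr rfl fun i _ => ?_
  rw [mul_zpow]
  ring

theorem crvS_scale {s : Fin r → ℂ} {a : Fin M → Fin m → ℂ} {b : Fin M → Fin m → ℤ}
    (h : CrvS K₀ G Q s a b) {t : ℂ} (ht : t ≠ 0) :
    CrvS K₀ G Q s (fun c i => a c i * t ^ b c i) b := by
  obtain ⟨h1, t1, u1, c, c', ht1, hu1, hne⟩ := h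
  refine ⟨fun u hu => ?_, t⁻¹ * t1, t⁻¹ * u1, c, c', mul_ne_zero (inv_ne_zero ht) ht1,
    mul_ne_zero (inv_ne_zero ht) hu1, ?_⟩
  · rw [laur_scale]
    exact h1 _ (mul_ne_zero ht hu)
  · rw [laur_scale, laur_scale, mul_inv_cancel_left₀ ht, mul_inv_cancel_left₀ ht]
    exact hne

/-- **Limits of unsuitable parameters.** -/
theorem not_works_lim [Finite ι] {𝒰 : Ultrafilter ℕ} {θ : UC 𝒰 ≃+* ℂ}
    (hθ : ∀ x : K₀, θ (diagU 𝒰 (x : ℂ)) = x) (s : ℕ → Fin r → ℂ)
    (h : ∀ᶠ n in (𝒰 : Filter ℕ), ¬ Works m G Q H (s n)) :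
    ¬ Works m G Q H (fun j => θ (clU 𝒰 fun n => s n j)) := by
  classical
  rintro ⟨⟨z', hz0, hzU, hzH⟩, hW⟩
  have hθ' : ∀ x : K₀, θ (diagU 𝒰 (K₀.subtype x)) = K₀.subtype x := hθ
  have hval : ∀ (z : ℕ → Fin M → ℂ) (P : MvPolynomial (Fin r ⊕ Fin M) K₀),
      val K₀.subtype (fun j => θ (clU 𝒰 fun n => s n j)) (fun c => θ (clU 𝒰 fun n => z n c)) P =
        θ (clU 𝒰 fun n => val K₀.subtype (s n) (z n) P) := by
    intro z P
    unfold val
    rw [← eval_theta hθ' (fun n => Sum.elim (s n) (z n)) P]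
    congr 1
    funext p
    rcases p with j | p
    · rfl
    · rfl
  have h1 : ∀ᶠ n in (𝒰 : Filter ℕ),
      (¬ ∃ z : Fin M → ℂ, z ≠ 0 ∧ InU K₀.subtype G Q (s n) z ∧ val K₀.subtype (s n) z H ≠ 0) ∨
      ∃ (a : Fin M → Fin m → ℂ) (b : Fin M → Fin m → ℤ) (t : ℂ), CrvS K₀ G Q (s n) a b ∧ t ≠ 0 ∧
        val K₀.subtype (s n) (laur a b t) H ≠ 0 := by
    filter_upwards [h] with n hn
    by_contra hcon
    push Not at hcon
    exact hn ⟨hcon.1, fun a b hab t ht => hcon.2 a b t hab ht⟩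
  rcases Ultrafilter.eventually_or.1 h1 with h2 | h2
  · -- the form does not vanish
    choose f hf using fun c => clU_surj 𝒰 (θ.symm (z' c))
    let z : ℕ → Fin M → ℂ := fun n c => f c n
    have hz : z' = fun c => θ (clU 𝒰 fun n => z n c) := by
      funext c
      have h3 : clU 𝒰 (fun n => z n c) = θ.symm (z' c) := hf c
      rw [h3, RingEquiv.apply_symm_apply]
    have h3 : ∀ᶠ n in (𝒰 : Filter ℕ), z n ≠ 0 := by
      obtain ⟨c, hc⟩ := Function.ne_iff.1 hz0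
      rw [hz] at hc
      have h4 : θ (clU 𝒰 fun n => z n c) ≠ 0 := hc
      rw [theta_ne] at h4
      filter_upwards [h4] with n hn h5
      exact hn (congrFun h5 c)
    have h4 : ∀ᶠ n in (𝒰 : Filter ℕ), ∀ j, val K₀.subtype (s n) (z n) (G j) = 0 := by
      rw [eventually_all]
      intro j
      rw [← theta_zero (θ := θ), ← hval, ← hz]
      exact hzU.1 j
    have h5 : ∀ᶠ n in (𝒰 : Filter ℕ), val K₀.subtype (s n) (z n) Q ≠ 0 := by
      rw [← theta_ne (θ := θ), ← hval, ← hz]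
      exact hzU.2
    have h6 : ∀ᶠ n in (𝒰 : Filter ℕ), val K₀.subtype (s n) (z n) H ≠ 0 := by
      rw [← theta_ne (θ := θ), ← hval, ← hz]
      exact hzH
    obtain ⟨n, g1, g2, g3, g4, g5⟩ := (h2.and (h3.and (h4.and (h5.and h6)))).exists
    exact g1 ⟨z n, g2, ⟨g3, g4⟩, g5⟩
  · -- the curves
    have h3 : ∀ n, ∃ (a : Fin M → Fin m → ℂ) (b : Fin M → Fin m → ℤ),
        (∃ (a : Fin M → Fin m → ℂ) (b : Fin M → Fin m → ℤ) (t : ℂ), CrvS K₀ G Q (s n) a b ∧
          t ≠ 0 ∧ val K₀.subtype (s n) (laur a b t) H ≠ 0) →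
        Good K₀.subtype G Q (s n) a b ∧ val K₀.subtype (s n) (fun c => ∑ i, a c i) H ≠ 0 := by
      intro n
      by_cases h4 : ∃ (a : Fin M → Fin m → ℂ) (b : Fin M → Fin m → ℤ) (t : ℂ),
          CrvS K₀ G Q (s n) a b ∧ t ≠ 0 ∧ val K₀.subtype (s n) (laur a b t) H ≠ 0
      · obtain ⟨a, b, t, h5, ht, h6⟩ := h4
        have h7 := crvS_scale h5 ht
        refine ⟨_, b, fun _ => ⟨Good.of_curve h7.1 h7.2, ?_⟩⟩
        rw [← laur_one (fun c i => a c i * t ^ b c i) b, laur_scale, mul_one]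
        exact h6
      · exact ⟨0, 0, fun h5 => absurd h5 h4⟩
    choose a b hab using h3
    have h4 : ∀ᶠ n in (𝒰 : Filter ℕ), Good K₀.subtype G Q (s n) (a n) (b n) ∧
        val K₀.subtype (s n) (fun c => ∑ i, a n c i) H ≠ 0 := by
      filter_upwards [h2] with n hn
      exact hab n hn
    let _ : Fintype ι := Fintype.ofFinite ι
    let T : Finset (Vr r M m →₀ ℕ) :=
      (Finset.univ.biUnion fun j : ι => (sub m (G j)).support) ∪ (sub m Q).support
    have hTG : ∀ j, (sub m (G j)).support ⊆ T := fun j x hx =>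
      Finset.mem_union_left _ (Finset.mem_biUnion.2 ⟨j, Finset.mem_univ _, hx⟩)
    have hTQ : (sub m Q).support ⊆ T := fun x hx => Finset.mem_union_right _ hx
    obtain ⟨b₀, hb₀⟩ := exists_pat 𝒰 T b
    have h5 : ∀ᶠ n in (𝒰 : Filter ℕ), Good K₀.subtype G Q (s n) (a n) b₀ := by
      filter_upwards [h4, hb₀] with n g1 g2
      exact good_pat g2 hTG hTQ g1.1
    have h6 := good_theta hθ' s a b₀ h5
    have h7 := h6.curve
    have h8 := hW _ b₀ h7 1 one_ne_zero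
    rw [laur_one] at h8
    have h9 : (fun c => ∑ i, θ (clU 𝒰 fun n => a n c i)) =
        fun c => θ (clU 𝒰 fun n => ∑ i, a n c i) := by
      funext c
      rw [← map_sum, ← map_sum]
      congr 2
      funext n
      rw [Finset.sum_apply]
    rw [h9, hval, theta_zero] at h8
    obtain ⟨n, g1, g2⟩ := (h8.and h4).exists
    exact g2.2 g1

end

section

variable {K₀ : Subfield ℂ} {r m N c g : ℕ}
  (G : Fin g → MvPolynomial (Fin r ⊕ Fin (N + 1 + c)) K₀)
  (Q : MvPolynomial (Fin r ⊕ Fin (N + 1 + c)) K₀)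

theorem eval_fib_map {M : ℕ} (s : Fin r → ℂ) (z : Fin M → ℂ)
    (P : MvPolynomial (Fin r ⊕ Fin M) K₀) :
    eval z (fib s (map K₀.subtype P)) = val K₀.subtype s z P := by
  rw [eval_fib, val_map]

/-- **Fibres of log general type.** -/
theorem exists_works (m : ℕ) (s : Fin r → ℂ)
    (h : GeneralTypePair N (fun j => fib s (map K₀.subtype (G j))) (fib s (map K₀.subtype Q))) :
    ∃ H : MvPolynomial (Fin r ⊕ Fin (N + 1 + c)) K₀,
      (∃ n, ∀ s', (fib s' (map K₀.subtype H)).IsHomogeneous n) ∧ Works m G Q H s := by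
  classical
  obtain ⟨q, w, E, d, hG', hE, ⟨δ, hQh⟩, hdim, hsm, hirr, hlgt, hQ, hne⟩ := h
  choose e hG using hG'
  obtain ⟨Φ, ⟨n, hn⟩, ⟨z1, hz1, hz1X, hz1Q, hz1Φ⟩, hgm⟩ :=
    lgt m _ E _ hG hE hdim hsm hirr hlgt hQh hQ hne
  have hcrv : ∀ (a : Fin (N + 1 + c) → Fin m → ℂ) (b : Fin (N + 1 + c) → Fin m → ℤ),
      CrvS K₀ G Q s a b → ∀ t, t ≠ 0 → eval (laur a b t) Φ = 0 := by
    intro a b hab t ht
    have h1 := hgm (fun j => j.elim0) a b (fun t ht => ?_) hab.2 t ht ()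
    · rwa [val_rename] at h1
    · obtain ⟨h2, h3⟩ := hab.1 t ht
      refine ⟨fun j => ?_, ?_⟩
      · rw [val_rename, eval_fib_map]
        exact h2 j
      · rw [val_rename, eval_fib_map]
        exact h3
  have hX : ∀ z : Fin (N + 1 + c) → ℂ, OnX (fun j => fib s (map K₀.subtype (G j))) z ↔
      ∀ j, val K₀.subtype s z (G j) = 0 := by
    intro z
    refine forall_congr' fun j => ?_
    show aeval z (fib s (map K₀.subtype (G j))) = 0 ↔ _
    rw [aeval_eq_eval, eval_fib_map]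
  have hav : ∀ (z : Fin (N + 1 + c) → ℂ) (P : MvPolynomial (Fin r ⊕ Fin (N + 1 + c)) K₀),
      aeval z (fib s (map K₀.subtype P)) = val K₀.subtype s z P := by
    intro z P
    rw [aeval_eq_eval, eval_fib_map]
  obtain ⟨H, hH, ⟨z2, hz2, hz2H⟩, hHc⟩ := descent G Q s Φ hn ⟨z1, (hX z1).1 hz1X, by
    rwa [aeval_eq_eval] at hz1Φ⟩ hcrv
  refine ⟨H, ⟨n, hH⟩, ?_, hHc⟩
  -- the form does not vanish on `X - D`
  by_contra hcon
  push Not at hcon
  obtain ⟨x0, hx0, hx0G, hx0Q⟩ := hne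
  obtain ⟨j, hj⟩ := Function.ne_iff.mp hx0
  rcases hirr (fib s (map K₀.subtype H)) (fib s (map K₀.subtype Q) * X j) (fun z hz => by
    by_cases hzQ : aeval z (fib s (map K₀.subtype Q)) = 0
    · rw [map_mul, hzQ, zero_mul, mul_zero]
    by_cases hz0 : z = 0
    · rw [map_mul, aeval_X, hz0, Pi.zero_apply, mul_zero, mul_zero]
    · rw [hav, hcon z hz0 ⟨(hX z).1 hz, by rwa [hav] at hzQ⟩, zero_mul]) with h | h
  · have h1 := h z2 ((hX z2).2 hz2)
    rw [hav] at h1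
    exact hz2H h1
  · have h5 := h x0 hx0G
    rw [map_mul, aeval_X] at h5
    exact mul_ne_zero hx0Q hj h5

/-- **The finite list.** -/
theorem exists_list (m : ℕ) (hK : Countable K₀) {f : ℕ} (F : Fin f → MvPolynomial (Fin r) K₀)
    (R : MvPolynomial (Fin r) K₀)
    (h : ∀ s : Fin r → ℂ, OnBase (fun i => map K₀.subtype (F i)) (map K₀.subtype R) s →
      GeneralTypePair N (fun j => fib s (map K₀.subtype (G j))) (fib s (map K₀.subtype Q))) :
    ∃ (l : ℕ) (H : Fin l → MvPolynomial (Fin r ⊕ Fin (N + 1 + c)) K₀),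
      (∀ i, ∃ n, ∀ s', (fib s' (map K₀.subtype (H i))).IsHomogeneous n) ∧
      ∀ s : Fin r → ℂ, OnBase (fun i => map K₀.subtype (F i)) (map K₀.subtype R) s →
        ∃ i, Works m G Q (H i) s := by
  classical
  by_contra hcon
  let 𝓗 : Type := {H : MvPolynomial (Fin r ⊕ Fin (N + 1 + c)) K₀ //
    ∃ n, ∀ s', (fib s' (map K₀.subtype H)).IsHomogeneous n}
  have hcnt0 : Countable (MvPolynomial (Fin r ⊕ Fin (N + 1 + c)) K₀) := by
    rw [← Cardinal.mk_le_aleph0_iff]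
    refine MvPolynomial.cardinalMk_le_max.trans (max_le (max_le ?_ ?_) le_rfl)
    · exact Cardinal.mk_le_aleph0_iff.2 hK
    · exact Cardinal.mk_le_aleph0
  have hcnt : Countable 𝓗 := inferInstance
  have hne : Nonempty 𝓗 := ⟨⟨0, 0, fun s' => by
    have h1 : fib s' (map K₀.subtype (0 : MvPolynomial (Fin r ⊕ Fin (N + 1 + c)) K₀)) = 0 := by
      rw [map_zero]
      exact map_zero _
    rw [h1]
    exact isHomogeneous_zero _ _ _⟩⟩
  obtain ⟨η, hη⟩ := exists_surjective_nat 𝓗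
  have hs : ∀ n : ℕ, ∃ s : Fin r → ℂ,
      OnBase (fun i => map K₀.subtype (F i)) (map K₀.subtype R) s ∧
        ∀ i < n, ¬ Works m G Q (η i).1 s := by
    intro n
    by_contra h1
    push Not at h1
    apply hcon
    refine ⟨n, fun i => (η i).1, fun i => (η i).2, fun s hs => ?_⟩
    obtain ⟨i, hi, h2⟩ := h1 s hs
    exact ⟨⟨i, hi⟩, h2⟩
  choose s hsB hsW using hs
  let 𝒰 : Ultrafilter ℕ := hyperfilter ℕ
  obtain ⟨θ, hθ⟩ := exists_theta 𝒰 K₀ hK
  have hθ' : ∀ x : K₀, θ (diagU 𝒰 (K₀.subtype x)) = K₀.subtype x := hθ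
  let s' : Fin r → ℂ := fun j => θ (clU 𝒰 fun n => s n j)
  have hev : ∀ P : MvPolynomial (Fin r) K₀, aeval s' (map K₀.subtype P) =
      θ (clU 𝒰 fun n => aeval (s n) (map K₀.subtype P)) := by
    intro P
    have h1 : ∀ t : Fin r → ℂ, aeval t (map K₀.subtype P) = eval₂ K₀.subtype t P := by
      intro t
      rw [aeval_eq_eval, eval_map]
    simp only [h1]
    exact eval_theta hθ' s P
  have hB : OnBase (fun i => map K₀.subtype (F i)) (map K₀.subtype R) s' := by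
    refine ⟨fun i => ?_, ?_⟩
    · rw [hev, theta_zero]
      exact Eventually.of_forall fun n => (hsB n).1 i
    · rw [hev, theta_ne]
      exact Eventually.of_forall fun n => (hsB n).2
  obtain ⟨H, hH, hHW⟩ := exists_works G Q m s' (h s' hB)
  obtain ⟨i, hi⟩ := hη ⟨H, hH⟩
  have h1 : ∀ᶠ n in (𝒰 : Filter ℕ), ¬ Works m G Q H (s n) := by
    filter_upwards [hyper_ge (i + 1)] with n hn
    have h2 := hsW n i hn
    rw [hi] at h2
    exact h2
  exact not_works_lim hθ s h1 hHW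

end

end Pool.Agent.W2helper39.FB
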