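import Mathlib
import Pool.Agent.W2helper39.FB.Uni

/-!
Uniform bounds for families of varieties of log general type.
-/

set_option autoImplicit false
set_option linter.unusedSectionVars false

namespace Pool.Agent.W2helper39.FB

open MvPolynomial Filter FF
open Pool.Agent.W2helper39.MU hiding GmIn lgt hom_zero
open Pool.Agent.Results.MP_70ba79_ag.SparseCurves (height)

section

variable {K₀ : Subfield ℂ} {r M m : ℕ} {ι : Type}
  {G : ι → MvPolynomial (Fin r ⊕ Fin M) K₀} {Q H : MvPolynomial (Fin r ⊕ Fin M) K₀}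

/-- values of polynomials over `K₀` -/
theorem val_map' {F : Type} [Field F] (ψ : ℂ →+* F) (s : Fin r → F) (z : Fin M → F)
    (P : MvPolynomial (Fin r ⊕ Fin M) K₀) :
    val ψ s z (map K₀.subtype P) = val (ψ.comp K₀.subtype) s z P := by
  unfold val
  rw [eval₂_map]

theorem val_hom {A F F' : Type} [CommRing A] [Field F] [Field F'] (θ : F →+* F') (φ : A →+* F)
    (s : Fin r → F) (z : Fin M → F) (P : MvPolynomial (Fin r ⊕ Fin M) A) :
    val (θ.comp φ) (fun j => θ (s j)) (fun c => θ (z c)) P = θ (val φ s z P) := by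
  unfold val
  have h1 : Sum.elim (fun j => θ (s j)) (fun c => θ (z c)) = fun p => θ (Sum.elim s z p) := by
    funext p
    rcases p with j | p
    · rfl
    · rfl
  rw [h1]
  exact (eval₂_comp_left θ φ (Sum.elim s z) P).symm

/-- good curves over an isomorphic copy of `ℂ` -/
theorem zero_of_good {ψ : ℂ →+* ℂ} (hψ : ψ.comp K₀.subtype = K₀.subtype) {s : Fin r → ℂ}
    (hW : Works m G Q H s) {y : Fin M → Fin m → ℂ} {b : Fin M → Fin m → ℤ}
    (hg : Good ψ (fun j => map K₀.subtype (G j)) (map K₀.subtype Q) s y b) :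
    val K₀.subtype s (fun c => ∑ i, y c i) H = 0 := by
  obtain ⟨h1, h2⟩ := hg.curve
  have h3 : CrvS K₀ G Q s y b := by
    refine ⟨fun t ht => ?_, h2⟩
    obtain ⟨h4, h5⟩ := h1 t ht
    refine ⟨fun j => ?_, ?_⟩
    · have h6 := h4 j
      rwa [val_map', hψ] at h6
    · rwa [val_map', hψ] at h5
  have h4 := hW.2 y b h3 1 one_ne_zero
  rwa [laur_one] at h4

end

/-- **Uniform bounds.** -/
theorem uniform (m : ℕ) {f r N c g : ℕ} (G : Fin g → MvPolynomial (Fin r ⊕ Fin (N + 1 + c)) ℂ)
    (Q : MvPolynomial (Fin r ⊕ Fin (N + 1 + c)) ℂ) (F : Fin f → MvPolynomial (Fin r) ℂ)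
    (R : MvPolynomial (Fin r) ℂ)
    (h : ∀ s : Fin r → ℂ, OnBase F R s → GeneralTypePair N (fun j => fib s (G j)) (fib s Q)) :
    UniformFibres m G Q F R ∧ UniformPoints m G Q F R := by
  classical
  -- the field of definition
  let P1 : Fin g ⊕ Unit → MvPolynomial (Fin r ⊕ Fin (N + 1 + c)) ℂ := Sum.elim G fun _ => Q
  let P2 : Fin f ⊕ Unit → MvPolynomial (Fin r) ℂ := Sum.elim F fun _ => R
  let K₀ : Subfield ℂ := Subfield.closure ((coeffField P1 : Set ℂ) ∪ (coeffField P2 : Set ℂ))
  have hK : Countable K₀ := by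
    have h1 := countable_coeffField P1
    have h2 := countable_coeffField P2
    rw [← Cardinal.mk_le_aleph0_iff]
    refine (Subfield.cardinalMk_closure_le_max _).trans (max_le ?_ le_rfl)
    rw [Cardinal.le_aleph0_iff_set_countable]
    exact (Set.countable_coe_iff.1 h1).union (Set.countable_coe_iff.1 h2)
  have hl1 : ∀ i, ∃ P₀ : MvPolynomial (Fin r ⊕ Fin (N + 1 + c)) K₀,
      map K₀.subtype P₀ = P1 i := fun i => exists_lift K₀ _ fun d hd =>
    Subfield.subset_closure (Or.inl (mem_coeffField P1 i d hd))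
  have hl2 : ∀ i, ∃ P₀ : MvPolynomial (Fin r) K₀, map K₀.subtype P₀ = P2 i := fun i =>
    exists_lift K₀ _ fun d hd => Subfield.subset_closure (Or.inr (mem_coeffField P2 i d hd))
  choose L1 hL1 using hl1
  choose L2 hL2 using hl2
  let G₀ : Fin g → MvPolynomial (Fin r ⊕ Fin (N + 1 + c)) K₀ := fun j => L1 (Sum.inl j)
  let Q₀ : MvPolynomial (Fin r ⊕ Fin (N + 1 + c)) K₀ := L1 (Sum.inr ())
  let F₀ : Fin f → MvPolynomial (Fin r) K₀ := fun j => L2 (Sum.inl j)
  let R₀ : MvPolynomial (Fin r) K₀ := L2 (Sum.inr ())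
  have hG : (fun j => map K₀.subtype (G₀ j)) = G := funext fun j => hL1 (Sum.inl j)
  have hQ : map K₀.subtype Q₀ = Q := hL1 (Sum.inr ())
  have hF : (fun j => map K₀.subtype (F₀ j)) = F := funext fun j => hL2 (Sum.inl j)
  have hR : map K₀.subtype R₀ = R := hL2 (Sum.inr ())
  clear_value G₀ Q₀ F₀ R₀ K₀
  subst hG hQ hF hR
  obtain ⟨N₀, C, B, hD⟩ := dichotomy (m := m) (G := fun j => map K₀.subtype (G₀ j))
    (Q := map K₀.subtype Q₀)
  obtain ⟨l, H, hH, hW⟩ := exists_list G₀ Q₀ m hK F₀ R₀ h
  refine ⟨⟨N₀, C, l, fun i => map K₀.subtype (H i), hH, fun s hs => ?_⟩,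
    ⟨N₀, C, l, fun i => map K₀.subtype (H i), hH, fun L _ _ _ s hs => ?_⟩⟩
  · -- constant parameters
    obtain ⟨i, hi⟩ := hW s hs
    refine ⟨i, ?_, fun L _ _ _ S N' a u q v x hN hp hx => ?_⟩
    · obtain ⟨z, hz0, ⟨hz1, hz2⟩, hz3⟩ := hi.1
      refine ⟨z, hz0, ⟨fun j => ?_, ?_⟩, ?_⟩
      · exact (val_map s z (G₀ j)).trans (hz1 j)
      · intro h0
        exact hz2 ((val_map s z Q₀).symm.trans h0)
      · intro h0
        exact hz3 ((val_map s z (H i)).symm.trans h0)
    · rcases hD L S N' (const L s) a u q v x hN hp with h1 | ⟨b, -, hb⟩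
      · exact h1
      · exfalso
        have h2 : x = fun c => ∑ i, a c i * u c i := funext fun c => hp.2.2.1 c
        rw [h2] at hx
        obtain ⟨y', hy', hne⟩ := good_const hb _ hx
        apply hne
        rw [val_map]
        exact zero_of_good (RingHom.ext fun x => rfl) hi hy'
  · -- moving parameters
    obtain ⟨θ, hθ⟩ := exists_cl K₀ hK L
    let ρ : L →+* ℂ := (θ : AlgebraicClosure L →+* ℂ).comp (algebraMap L (AlgebraicClosure L))
    let ψ : ℂ →+* ℂ := ρ.comp (algebraMap ℂ L)
    have hψ : ψ.comp K₀.subtype = K₀.subtype := RingHom.ext fun x => hθ x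
    let s' : Fin r → ℂ := fun j => ρ (s j)
    have hev : ∀ P : MvPolynomial (Fin r) K₀, aeval s' (map K₀.subtype P) =
        ρ (aeval s (map K₀.subtype P)) := by
      intro P
      have h1 : aeval s (map K₀.subtype P) =
          eval₂ ((algebraMap ℂ L).comp K₀.subtype) s P := by
        rw [aeval_def, eval₂_map]
      have h2 : aeval s' (map K₀.subtype P) = eval₂ K₀.subtype s' P := by
        rw [aeval_eq_eval, eval_map]
      rw [h1, h2, eval₂_comp_left ρ]
      have h3 : ρ.comp ((algebraMap ℂ L).comp K₀.subtype) = K₀.subtype := hψ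
      rw [h3]
      rfl
    have hs' : OnBase (fun j => map K₀.subtype (F₀ j)) (map K₀.subtype R₀) s' := by
      refine ⟨fun j => ?_, ?_⟩
      · rw [hev, hs.1 j, map_zero]
      · rw [hev]
        exact (map_ne_zero ρ).2 hs.2
    obtain ⟨i, hi⟩ := hW s' hs'
    refine ⟨i, ?_, fun S N' a u q v x hN hp hx => ?_⟩
    · obtain ⟨z, hz0, ⟨hz1, hz2⟩, hz3⟩ := hi.1
      let z' : Fin (N + 1 + c) → AlgebraicClosure L := fun c => θ.symm (z c)
      let sL : Fin r → AlgebraicClosure L := fun j => algebraMap L (AlgebraicClosure L) (s j)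
      have hval : ∀ P : MvPolynomial (Fin r ⊕ Fin (N + 1 + c)) K₀,
          θ (val (algebraMap ℂ (AlgebraicClosure L)) sL z' (map K₀.subtype P)) =
            val K₀.subtype s' z P := by
        intro P
        rw [val_map']
        have h1 := val_hom (θ : AlgebraicClosure L →+* ℂ)
          ((algebraMap ℂ (AlgebraicClosure L)).comp K₀.subtype) sL z' P
        have h2 : (θ : AlgebraicClosure L →+* ℂ).comp
            ((algebraMap ℂ (AlgebraicClosure L)).comp K₀.subtype) = K₀.subtype :=
          RingHom.ext fun x => hθ x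
        rw [h2] at h1
        have h3 : (fun c => (θ : AlgebraicClosure L →+* ℂ) (z' c)) = z := by
          funext c
          exact RingEquiv.apply_symm_apply θ (z c)
        rw [h3] at h1
        exact h1.symm
      refine ⟨z', ?_, ⟨fun j => ?_, ?_⟩, ?_⟩
      · intro h0
        apply hz0
        funext c
        have h1 := congrFun h0 c
        have h2 : θ.symm (z c) = 0 := h1
        rwa [map_eq_zero_iff θ.symm θ.symm.injective] at h2
      · apply θ.injective
        rw [hval, hz1 j, map_zero]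
      · intro h0
        apply hz2
        rw [← hval, h0, map_zero]
      · intro h0
        apply hz3
        rw [← hval, h0, map_zero]
    · rcases hD L S N' s a u q v x hN hp with h1 | ⟨b, -, hb⟩
      · exact h1
      · exfalso
        have h2 : x = fun c => ∑ i, a c i * u c i := funext fun c => hp.2.2.1 c
        rw [h2] at hx
        apply hx
        have h3 := hb.map ρ
        have h4 := zero_of_good hψ hi h3
        apply ρ.injective
        rw [map_zero, ← h4, val_map']
        have h5 := val_hom ρ ((algebraMap ℂ L).comp K₀.subtype) s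
          (fun c => ∑ i, a c i * u c i) (H i)
        have h6 : ρ.comp ((algebraMap ℂ L).comp K₀.subtype) = K₀.subtype := hψ
        rw [h6] at h5
        rw [← h5]
        congr 1
        funext c
        rw [map_sum]

end Pool.Agent.W2helper39.FB
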