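import Mathlib
import Pool.Agent.W2helper39.FB.Bound

/-!
The dichotomy for points of large degree.
-/

set_option autoImplicit false

namespace Pool.Agent.W2helper39.FB

open MvPolynomial FF

theorem dich {ι : Type} [Finite ι] {r M : ℕ} (m : ℕ) (G : ι → MvPolynomial (Fin r ⊕ Fin M) ℂ)
    (Q : MvPolynomial (Fin r ⊕ Fin M) ℂ) : Dichotomy m G Q := by
  obtain ⟨N₀, C, B, hD⟩ := dichotomy (m := m) (G := G) (Q := Q)
  refine ⟨N₀, C, B, fun L _ _ _ S N s a u q v x hN hp => ?_⟩
  have hinf : Infinite L := Infinite.of_injective (algebraMap ℂ L) (algebraMap ℂ L).injective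
  rcases hD L S N s a u q v x hN hp with h1 | ⟨b, hb, hg⟩
  · exact Or.inl h1
  · exact Or.inr ⟨b, hb, hg.curve⟩

end Pool.Agent.W2helper39.FB
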